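import Mathlib
import Pool.Agent.Helper45.GrBase
import Pool.Agent.Helper45.ShThr

/-!
Definitions for project HF (MP_b56c98_ag): the Hilbert function of general fat points below and
above the sharp threshold.
-/

namespace Pool.Agent.Helper65.HF

open MvPolynomial Pool.Agent.Helper45

/-- Nondecreasing lists. -/
abbrev Srt (l : List ℕ) : Prop := l.Pairwise (· ≤ ·)

open Classical in
/-- Nondecreasing lists of length `c` with entries `< N` (monomials of degree `c` in the variables
number `0, ..., N - 1`). -/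
noncomputable def srt (N c : ℕ) : Finset (List ℕ) :=
  ((Finset.univ : Finset (Fin c → Fin N)).image
    (fun a => List.ofFn fun i => ((a i : Fin N) : ℕ))).filter Srt

open Classical in
/-- Number of elements of a finite set of lists with a property. -/
noncomputable def num (s : Finset (List ℕ)) (Z : List ℕ → Prop) : ℕ := (s.filter Z).card

open Classical in
/-- Regular tails of length `t` after position `i`: nondecreasing lists with entries in `[a, M)`
whose entry number `u` (counted from `0`) is at least `ν (i + u + 1)`. -/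
noncomputable def tl (M : ℕ) (ν : ℕ → ℕ) (i t a : ℕ) : Finset (List ℕ) :=
  (srt M t).filter fun τ => (∀ x ∈ τ, a ≤ x) ∧ ∀ u, u < t → ν (i + u + 1) ≤ τ.getD u 0

open Classical in
/-- Nondecreasing lists of length `i` whose last entry is irregular (smaller than `ν i`);
for `i = 0` the empty list. -/
noncomputable def irr (M : ℕ) (ν : ℕ → ℕ) (i : ℕ) : Finset (List ℕ) :=
  (srt M i).filter fun p => i = 0 ∨ p.getD (i - 1) 0 < ν i

/-- Pointwise comparison of lists of the same length. -/
abbrev LeL (l l' : List ℕ) : Prop := List.Forall₂ (· ≤ ·) l l'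

/-- Upward closed properties of nondecreasing lists. -/
def Up (St : List ℕ → Prop) : Prop :=
  ∀ l l' : List ℕ, Srt l → Srt l' → LeL l l' → St l → St l'

/-- Properties stable under removing the last entry. -/
def Pre (St : List ℕ → Prop) : Prop :=
  ∀ (l : List ℕ) (b : ℕ), Srt (l ++ [b]) → St (l ++ [b]) → St l

/-- The generic Hilbert function: the dimension in degree `c` of the quotient of the polynomial
ring in `N` variables over `k` by `r` general `j`-th powers of linear forms. -/
noncomputable def H (k : Type*) [Field k] (j N r c : ℕ) : ℕ :=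
  (N + c - 1).choose c - (if j ≤ c then Gr.gen k (Fin N) j (c - j) r else 0)

/-- The expected value: the coefficient of `z ^ c` in `(1 - z ^ j) ^ r / (1 - z) ^ N`. -/
def EE (j N r c : ℕ) : ℤ :=
  ∑ i ∈ Finset.range (c / j + 1),
    (-1) ^ i * (r.choose i : ℤ) * ((N + (c - i * j) - 1).choose (c - i * j) : ℤ)

/-- The size of the windows: `M ^ p * sqrt (M * log M)`. -/
noncomputable def wd (p M : ℕ) : ℝ := (M : ℝ) ^ p * Real.sqrt (M * Real.log M)

/-- Exactness below the threshold in degree `c`. -/
def Below (k : Type*) [Field k] (j c : ℕ) : Prop :=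
  ∀ cs : ℝ, IsZ j c cs → ∃ C : ℝ, ∃ M0 : ℕ, ∀ M ≥ M0, ∀ r : ℕ,
    (r : ℝ) ≤ cs * (M : ℝ) ^ j - C * wd (j - 1) M → (H k j M r c : ℤ) = EE j M r c

theorem mem_srt {N c : ℕ} {l : List ℕ} :
    l ∈ srt N c ↔ l.length = c ∧ Srt l ∧ ∀ x ∈ l, x < N := by
  classical
  unfold srt
  rw [Finset.mem_filter, Finset.mem_image]
  constructor
  · rintro ⟨⟨a, _, rfl⟩, h⟩
    refine ⟨List.length_ofFn, h, ?_⟩
    intro x hx
    rw [List.mem_ofFn] at hx
    obtain ⟨i, rfl⟩ := hx
    exact (a i).2
  · rintro ⟨h1, h2, h3⟩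
    subst h1
    refine ⟨⟨fun i => ⟨l.get i, h3 _ (List.get_mem l i)⟩, Finset.mem_univ _, ?_⟩, h2⟩
    exact List.ofFn_get l

theorem mem_tl {M : ℕ} {ν : ℕ → ℕ} {i t a : ℕ} {τ : List ℕ} :
    τ ∈ tl M ν i t a ↔ (τ.length = t ∧ Srt τ ∧ ∀ x ∈ τ, x < M) ∧ (∀ x ∈ τ, a ≤ x) ∧
      ∀ u, u < t → ν (i + u + 1) ≤ τ.getD u 0 := by
  classical
  unfold tl
  rw [Finset.mem_filter, mem_srt]

theorem mem_irr {M : ℕ} {ν : ℕ → ℕ} {i : ℕ} {p : List ℕ} :
    p ∈ irr M ν i ↔ (p.length = i ∧ Srt p ∧ ∀ x ∈ p, x < M) ∧
      (i = 0 ∨ p.getD (i - 1) 0 < ν i) := by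
  classical
  unfold irr
  rw [Finset.mem_filter, mem_srt]

theorem num_le_card (s : Finset (List ℕ)) (Z : List ℕ → Prop) : num s Z ≤ s.card := by
  classical
  exact Finset.card_filter_le _ _

theorem num_mono {s : Finset (List ℕ)} {Z Z' : List ℕ → Prop} (h : ∀ l ∈ s, Z l → Z' l) :
    num s Z ≤ num s Z' := by
  classical
  unfold num
  refine Finset.card_le_card ?_
  intro l hl
  rw [Finset.mem_filter] at hl ⊢
  exact ⟨hl.1, h l hl.1 hl.2⟩

theorem num_congr {s : Finset (List ℕ)} {Z Z' : List ℕ → Prop} (h : ∀ l ∈ s, (Z l ↔ Z' l)) :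
    num s Z = num s Z' :=
  le_antisymm (num_mono fun l hl => (h l hl).1) (num_mono fun l hl => (h l hl).2)

theorem num_mono_set {s s' : Finset (List ℕ)} (Z : List ℕ → Prop) (h : s ⊆ s') :
    num s Z ≤ num s' Z := by
  classical
  unfold num
  exact Finset.card_le_card (Finset.filter_subset_filter _ h)

theorem num_true (s : Finset (List ℕ)) : num s (fun _ => True) = s.card := by
  unfold num
  congr 1
  ext l
  simp

theorem num_add_not (s : Finset (List ℕ)) (Z : List ℕ → Prop) :
    num s Z + num s (fun l => ¬ Z l) = s.card := by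
  classical
  unfold num
  have h := Finset.card_filter_add_card_filter_not (s := s) (p := Z)
  convert h using 2
  congr 1
  ext l
  simp only [Finset.mem_filter]

theorem num_eq_sum (s : Finset (List ℕ)) (Z : List ℕ → Prop) [DecidablePred Z] :
    num s Z = ∑ l ∈ s, (if Z l then 1 else 0) := by
  classical
  unfold num
  rw [Finset.card_filter]
  refine Finset.sum_congr rfl fun l _ => ?_
  by_cases h : Z l
  · rw [if_pos h, if_pos h]
  · rw [if_neg h, if_neg h]

end Pool.Agent.Helper65.HF
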