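import Mathlib
import Pool.Agent.Helper65.HF.Defs

/-!
Project HF, part C: the combinatorial modules (finite sets of nondecreasing lists).

All modules are independent: what is needed from other modules is a hypothesis of the statement.
Conventions: `srt N c` nondecreasing lists of length `c` with entries `< N`; `tl M ν i t a` regular
tails; `irr M ν i` lists whose last entry is irregular; `num s Z` number of elements of `s` with
property `Z` (all lemmas `mem_srt mem_tl mem_irr num_mono num_congr num_add_not num_eq_sum` are in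
Defs.lean). Intuition: `St` is the set of standard monomials of a strongly stable ideal.
-/

namespace Pool.Agent.Helper65.HF

open MvPolynomial Pool.Agent.Helper45

/-- MODULE FKG (about 120 lines). Correlation inequality for regular tails.
PROOF. Mathlib has `fkg` (Mathlib/Combinatorics/SetFamily/FourFunctions.lean) for a finite
distributive lattice `α` and `μ f g : α → ℝ`, with `f g` nonnegative and monotone. Take
`α := Fin t → Fin M` (pointwise order; if `t = 0` or `M = 0` treat by hand or note that everything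
works), write `L x := List.ofFn (fun u => (x u : ℕ))`, `T := tl M ν i t a`,
`μ x := if L x ∈ T then 1 else 0`. Every list in `T` is `L x` for exactly one `x`, so
`∑ τ ∈ T, h τ = ∑ x, μ x * h (L x)` for every `h`. If `L x` and `L y` are in `T` then so are
`L (x ⊓ y)` and `L (x ⊔ y)` (the conditions nondecreasing, entries at least `a`, entry number `u` at
least `ν (i + u + 1)` are preserved by pointwise min and max); hence
`μ x * μ y ≤ μ (x ⊓ y) * μ (x ⊔ y)`. Extend `f` to a monotone function on `α`: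
`f' x :=` the maximum of `0` and of all `f (L y)` with `y ≤ x`, `L y ∈ T` (use `Finset.sup'` over
`insert`, or `Finset.sup` with values in `NNReal`, or `Finset.fold max 0`). Then `f'` is monotone,
nonnegative and `f' x = f (L x)` if `L x ∈ T` (monotonicity of `f` on `T`; pointwise `y ≤ x` means
`List.Forall₂ (≤) (L y) (L x)`). Same for `g`. Apply `fkg μ f' g'`:
`(∑ μ f') (∑ μ g') ≤ (∑ μ) (∑ μ f' g')`, which is the claim. -/
def sFKG : Prop := ∀ (M : ℕ) (ν : ℕ → ℕ) (i t a : ℕ) (f g : List ℕ → ℝ),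
  (∀ τ ∈ tl M ν i t a, 0 ≤ f τ) → (∀ τ ∈ tl M ν i t a, 0 ≤ g τ) →
  (∀ τ ∈ tl M ν i t a, ∀ τ' ∈ tl M ν i t a, LeL τ τ' → f τ ≤ f τ') →
  (∀ τ ∈ tl M ν i t a, ∀ τ' ∈ tl M ν i t a, LeL τ τ' → g τ ≤ g τ') →
  (∑ τ ∈ tl M ν i t a, f τ) * (∑ τ ∈ tl M ν i t a, g τ) ≤
    ((tl M ν i t a).card : ℝ) * ∑ τ ∈ tl M ν i t a, f τ * g τ

/-- MODULE SPL (about 80 lines). Splitting a regular tail of length `t + u` after `t` entries.
PROOF. The map `v ↦ (v.take t, v.drop t)` is a bijection from `tl M ν i (t + u) a` onto the pairs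
`(τ, σ)` with `τ ∈ tl M ν i t a` and `σ ∈ tl M ν (i + t) u (τ.getLastD a)`, with inverse
`(τ, σ) ↦ τ ++ σ`. Indeed `v` nondecreasing means: `τ`, `σ` nondecreasing and all entries of `σ` at
least the last entry of `τ` (at least `a` if `τ = []`; for `t ≥ 1` the last entry of `τ` is at least
`a`, so the condition `a ≤ x` for `x ∈ σ` is implied); entry number `t + w` of `v` is entry number
`w` of `σ`, and `i + (t + w) + 1 = (i + t) + w + 1`. Use `Finset.card_sigma` or
`Finset.card_bij'`/`Finset.sum_nbij'` after `num_eq_sum`. -/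
def sSPL : Prop := ∀ (M : ℕ) (ν : ℕ → ℕ) (i t u a : ℕ) (Z : List ℕ → Prop),
  num (tl M ν i (t + u) a) Z =
    ∑ τ ∈ tl M ν i t a, num (tl M ν (i + t) u (τ.getLastD a)) (fun σ => Z (τ ++ σ))

/-- MODULE ALP (about 90 lines). Long tails have their first part in a downward closed set at
least as often as short tails.
PROOF. Let `T := tl M ν i t a`, `n τ := (tl M ν (i + t) u (τ.getLastD a)).card`. By SPL
(with `Z` true, resp. `Z v = D (v.take t)`; note `(τ ++ σ).take t = τ` as `τ` has length `t`)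
`(tl M ν i (t + u) a).card = ∑ τ ∈ T, n τ` and
`num (tl M ν i (t + u) a) (fun v => D (v.take t)) = ∑ τ ∈ T, if D τ then n τ else 0`.
If `LeL τ τ'` then the last entry of `τ` is at most that of `τ'`, so
`tl M ν (i+t) u (last τ') ⊆ tl M ν (i+t) u (last τ)` and `n τ' ≤ n τ`. Let `C` be a number with
`n τ ≤ C` on `T` (e.g. `(srt M u).card`). Apply FKG to `f τ = if D τ then 0 else 1` and
`g τ = C - n τ` (both monotone on `T`, nonnegative): with `|T|` the cardinality, `q := num T D`,
`S := ∑_T n`, `S_D := ∑_{T, D} n`: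
`(|T| - q) (C |T| - S) ≤ |T| (C (|T| - q) - (S - S_D))`, i.e.
`-(|T| - q) S ≤ -|T| (S - S_D)`, i.e. `|T| S_D ≥ q S`. That is the claim. -/
def sALP : Prop := sFKG → sSPL → ∀ (M : ℕ) (ν : ℕ → ℕ) (i t u a : ℕ) (D : List ℕ → Prop),
  (∀ τ ∈ tl M ν i t a, ∀ τ' ∈ tl M ν i t a, LeL τ τ' → D τ' → D τ) →
  num (tl M ν i t a) D * (tl M ν i (t + u) a).card ≤
    num (tl M ν i (t + u) a) (fun v => D (v.take t)) * (tl M ν i t a).card

/-- The statement proved in module ALP (conclusion only). -/
def cALP : Prop := ∀ (M : ℕ) (ν : ℕ → ℕ) (i t u a : ℕ) (D : List ℕ → Prop),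
  (∀ τ ∈ tl M ν i t a, ∀ τ' ∈ tl M ν i t a, LeL τ τ' → D τ' → D τ) →
  num (tl M ν i t a) D * (tl M ν i (t + u) a).card ≤
    num (tl M ν i (t + u) a) (fun v => D (v.take t)) * (tl M ν i t a).card

/-- MODULE ALU (about 30 lines). The version for upward closed sets.
PROOF. Apply `cALP` to `D := fun τ => ¬ U τ` and use `num_add_not`:
`(|T| - x) S ≤ (S - y) |T|`, where `x = num T U`, `y = num (tl (t + u)) (U ∘ take t)`,
`S = (tl (t+u)).card`; hence `y |T| ≤ x S`. -/
def sALU : Prop := cALP → ∀ (M : ℕ) (ν : ℕ → ℕ) (i t u a : ℕ) (U : List ℕ → Prop),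
  (∀ τ ∈ tl M ν i t a, ∀ τ' ∈ tl M ν i t a, LeL τ τ' → U τ → U τ') →
  num (tl M ν i (t + u) a) (fun v => U (v.take t)) * (tl M ν i t a).card ≤
    num (tl M ν i t a) U * (tl M ν i (t + u) a).card

/-- The statement proved in module ALU (conclusion only). -/
def cALU : Prop := ∀ (M : ℕ) (ν : ℕ → ℕ) (i t u a : ℕ) (U : List ℕ → Prop),
  (∀ τ ∈ tl M ν i t a, ∀ τ' ∈ tl M ν i t a, LeL τ τ' → U τ → U τ') →
  num (tl M ν i (t + u) a) (fun v => U (v.take t)) * (tl M ν i t a).card ≤
    num (tl M ν i t a) U * (tl M ν i (t + u) a).card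

/-- MODULE BET (about 50 lines). Comparison of the start bounds.
PROOF. If `t = 0`: `tl M ν i 0 x = {[]} = tl M ν i 0 a` and `tl M ν i u x ⊆ tl M ν i u a`.
If `t ≥ 1`: apply `cALU` to `U τ := ∀ y ∈ τ, x ≤ y` (upward closed). Then
`num (tl M ν i t a) U = (tl M ν i t x).card` (as `a ≤ x`), and
`num (tl M ν i (t + u) a) (U ∘ take t) = (tl M ν i (t + u) x).card` because in a nondecreasing list
of length `t + u` with `t ≥ 1` all entries are at least `x` iff the first `t` entries are. -/
def sBET : Prop := cALU → ∀ (M : ℕ) (ν : ℕ → ℕ) (i t u a x : ℕ), a ≤ x →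
  (tl M ν i (t + u) x).card * (tl M ν i t a).card ≤
    (tl M ν i t x).card * (tl M ν i (t + u) a).card

/-- The statement proved in module BET (conclusion only). -/
def cBET : Prop := ∀ (M : ℕ) (ν : ℕ → ℕ) (i t u a x : ℕ), a ≤ x →
  (tl M ν i (t + u) x).card * (tl M ν i t a).card ≤
    (tl M ν i t x).card * (tl M ν i (t + u) a).card

/-- MODULE GAM (about 60 lines). Comparison of an irregular start with the full set.
PROOF. By SPL (at position `i`, `Z` true; `i + (t + u)` written as `i + (t + u)`):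
`(tl M ν 0 (i + t + u) 0).card = ∑ q ∈ tl M ν 0 i 0, (tl M ν i (t + u) (q.getLastD 0)).card` and
`(tl M ν 0 (i + t) 0).card = ∑ q ∈ tl M ν 0 i 0, (tl M ν i t (q.getLastD 0)).card`
(`0 + i = i`). For `q` in the index set, `q` has length `i ≥ 1` and its last entry is entry number
`i - 1`, so `ν i ≤ q.getLastD 0`, hence `a ≤ q.getLastD 0`. By `cBET` with `x := q.getLastD 0`:
`(tl M ν i (t + u) x).card * (tl M ν i t a).card ≤ (tl M ν i t x).card * (tl M ν i (t + u) a).card`.
Sum over `q`. -/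
def sGAM : Prop := cBET → sSPL → ∀ (M : ℕ) (ν : ℕ → ℕ) (i t u a : ℕ), 1 ≤ i → a ≤ ν i →
  (tl M ν 0 (i + t + u) 0).card * (tl M ν i t a).card ≤
    (tl M ν i (t + u) a).card * (tl M ν 0 (i + t) 0).card

/-- The statement proved in module GAM (conclusion only). -/
def cGAM : Prop := ∀ (M : ℕ) (ν : ℕ → ℕ) (i t u a : ℕ), 1 ≤ i → a ≤ ν i →
  (tl M ν 0 (i + t + u) 0).card * (tl M ν i t a).card ≤
    (tl M ν i (t + u) a).card * (tl M ν 0 (i + t) 0).card

/-- MODULE DEC (about 100 lines). Decomposition of a nondecreasing list at its last irregular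
position.
PROOF. For `l ∈ srt M c` let `i ≤ c` be the largest `i ≥ 1` with `l.getD (i - 1) 0 < ν i`
(`i = 0` if there is none; e.g. `Nat.findGreatest`). Then `p := l.take i ∈ irr M ν i`, and
`τ := l.drop i ∈ tl M ν i (c - i) (p.getLastD 0)`, `l = p ++ τ`. Conversely for `i ≤ c`,
`p ∈ irr M ν i` and `τ ∈ tl M ν i (c - i) (p.getLastD 0)` the list `p ++ τ` is in `srt M c` and its
largest irregular position is `i` (position `i` is irregular if `i ≥ 1`, entry number `u` of `τ` is
entry number `i + u` of `p ++ τ` and is at least `ν (i + u + 1)`, so all later positions are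
regular). So `(i, p, τ) ↦ p ++ τ` is a bijection from the triples onto `srt M c`; count those with
`Z`. (For `i = 0`: `irr M ν 0 = {[]}`, `[].getLastD 0 = 0`.) -/
def sDEC : Prop := ∀ (M : ℕ) (ν : ℕ → ℕ) (c : ℕ) (Z : List ℕ → Prop),
  num (srt M c) Z = ∑ i ∈ Finset.range (c + 1), ∑ p ∈ irr M ν i,
    num (tl M ν i (c - i) (p.getLastD 0)) (fun τ => Z (p ++ τ))

/-- The extension property: a standard list of length `s < n` may be extended by any regular
entry. -/
def Ext (M n : ℕ) (ν : ℕ → ℕ) (St : List ℕ → Prop) : Prop :=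
  ∀ s, s < n → ∀ l ∈ srt M s, ∀ b, b < M → (∀ x ∈ l, x ≤ b) → ν (s + 1) ≤ b → St l →
    St (l ++ [b])

/-- MODULE EXT (about 40 lines). Regular tails extend standard lists.
PROOF. Induction on the tail from the right (or on `t` with `τ = τ' ++ [b]`, or take initial parts
`τ.take w` for `w = 0, ..., t`): `p ++ τ.take w` is standard and in `srt M (i + w)`, all its entries
are at most `b := τ.getD w 0` (nondecreasing; and all entries of `p` are at most `p.getLastD 0`, as
`p` is nondecreasing), and `ν (i + w + 1) ≤ b < M`; so `Ext` gives that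
`p ++ τ.take w ++ [b] = p ++ τ.take (w + 1)` is standard. -/
def sEXT : Prop := ∀ (M n : ℕ) (ν : ℕ → ℕ) (St : List ℕ → Prop), Ext M n ν St →
  ∀ (i t : ℕ), i + t ≤ n → ∀ p ∈ srt M i, St p → ∀ τ ∈ tl M ν i t (p.getLastD 0), St (p ++ τ)

/-- MODULE MNB (about 150 lines). The main inequality below the threshold.
PROOF. Put `e := d - j`, `u := j - 1` (so `d - 1 = e + u`), `W w := St w ∧ ¬ St (w ++ replicate j
(M-1))` for `w` of length `e`, `V v := St v ∧ ¬ St (v ++ [M-1])` for `v` of length `d - 1`,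
`n := (tl M ν 0 (d-1) 0).card`, `m := (tl M ν 0 e 0).card`.
By DEC `num (srt M e) W = ∑ i ≤ e, ∑ p ∈ irr M ν i, A_p` where
`A_p := num (tl M ν i (e - i) (p.getLastD 0)) (fun τ => W (p ++ τ))`, and
`num (srt M (d-1)) V ≥ ∑ i ≤ e, ∑ p ∈ irr M ν i, V_p` where
`V_p := num (tl M ν i (d - 1 - i) (p.getLastD 0)) (fun v => V (p ++ v))` (drop the terms `i > e`).
It suffices to show `A_p * n ≤ V_p * m` for each `i ≤ e` and `p ∈ irr M ν i`. Put `t := e - i`,
`a := p.getLastD 0`. If `St p` is false then `A_p = 0` (`St (p ++ τ)` implies `St p` by `Pre`,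
removing the entries of `τ` one by one). So let `St p`.
(1) `D τ := W (p ++ τ)` is downward closed on `tl M ν i t a`: if `LeL τ τ'` and `W (p ++ τ')` then
`St (p ++ τ)` by EXT (`τ` is a regular tail, `i + t = e ≤ d - 1`), and `¬ St (p ++ τ ++ replicate)`
since otherwise `St (p ++ τ' ++ replicate)` by `Up`. So `cALP` gives
`A_p * (tl M ν i (t + u) a).card ≤ B_p * (tl M ν i t a).card`,
`B_p := num (tl M ν i (t + u) a) (fun v => W (p ++ v.take t))`.
(2) `B_p ≤ V_p`: (`t + u = d - 1 - i`) if `W (p ++ v.take t)` then `St (p ++ v)` by EXT, and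
`St (p ++ v ++ [M-1])` is false: `p ++ v ++ [M-1] = p ++ v.take t ++ (v.drop t ++ [M-1])` where the
last part has length `j` and entries at most `M - 1`, so it is pointwise at most
`p ++ v.take t ++ replicate j (M-1)`, which is not standard; use `Up`.
(3) `n * (tl M ν i t a).card ≤ (tl M ν i (t + u) a).card * m`: for `i ≥ 1` this is `cGAM`
(`a = p.getLastD 0 = p.getD (i-1) 0 < ν i`, `i + t + u = d - 1`, `i + t = e`); for `i = 0` we have
`p = []`, `a = 0`, `t = e` and both sides are equal.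
(4) Both `x := (tl M ν i t a).card` and `y := (tl M ν i (t + u) a).card` are positive: the constant
list `replicate t (M-1)` is a regular tail as `ν s < M` for all `s`, and `a ≤ M - 1` (`a = 0` or `a`
an entry of `p`; `M ≥ 1`).
From (1), (2): `A_p y ≤ V_p x`; from (3): `n x ≤ y m`. So `A_p n x ≤ A_p y m ≤ V_p x m`, cancel
`x`. -/
def sMNB : Prop := cALP → cGAM → sDEC → sEXT →
  ∀ (j d M : ℕ) (ν : ℕ → ℕ) (St : List ℕ → Prop), 1 ≤ j → j ≤ d → 1 ≤ M → (∀ s, ν s < M) →
    Up St → Pre St → Ext M (d - 1) ν St →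
    num (srt M (d - j)) (fun w => St w ∧ ¬ St (w ++ List.replicate j (M - 1))) *
      (tl M ν 0 (d - 1) 0).card ≤
    num (srt M (d - 1)) (fun v => St v ∧ ¬ St (v ++ [M - 1])) * (tl M ν 0 (d - j) 0).card

/-- The statement proved in module MNB (conclusion only). -/
def cMNB : Prop := ∀ (j d M : ℕ) (ν : ℕ → ℕ) (St : List ℕ → Prop), 1 ≤ j → j ≤ d → 1 ≤ M →
    (∀ s, ν s < M) → Up St → Pre St → Ext M (d - 1) ν St →
    num (srt M (d - j)) (fun w => St w ∧ ¬ St (w ++ List.replicate j (M - 1))) *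
      (tl M ν 0 (d - 1) 0).card ≤
    num (srt M (d - 1)) (fun v => St v ∧ ¬ St (v ++ [M - 1])) * (tl M ν 0 (d - j) 0).card

/-- MODULE CNT (about 80 lines). Few standard lists are irregular.
PROOF. DEC with `Z := St`. The term `i = 0` is `num (tl M ν 0 c 0) St ≤ (tl M ν 0 c 0).card`
(`irr M ν 0 = {[]}`). For `1 ≤ i ≤ c`: if `num (tl M ν i (c-i) (p.getLastD 0)) (St (p ++ ·)) ≠ 0`
then `St p` (by `Pre`, removing the entries of `τ` one by one) and `p` is nondecreasing of length
`i` with last entry `< ν i`, so all entries are `< ν i`, `p ∈ srt (ν i) i`; and each such term is at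
most `(tl ...).card ≤ M ^ (c - i)` (lists of length `c - i` with entries `< M`:
`(srt M t).card ≤ M ^ t` because `srt M t` is a filter of an image of `Fin t → Fin M`). So the inner
sum is at most `num (srt (ν i) i) St * M ^ (c - i)`. -/
def sCNT : Prop := sDEC → ∀ (M c : ℕ) (ν : ℕ → ℕ) (St : List ℕ → Prop), Pre St →
  num (srt M c) St ≤ (tl M ν 0 c 0).card +
    ∑ s ∈ Finset.Icc 1 c, num (srt (ν s) s) St * M ^ (c - s)

/-- MODULE OML (about 25 lines). Regular lists are standard.
PROOF. `(tl M ν 0 c 0) ⊆ srt M c`, and every element is standard by EXT with `i = 0`, `p = []`. -/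
def sOML : Prop := sEXT → ∀ (M n c : ℕ) (ν : ℕ → ℕ) (St : List ℕ → Prop), Ext M n ν St → St [] →
  c ≤ n → (tl M ν 0 c 0).card ≤ num (srt M c) St

/-- MODULE LST (about 80 lines). Counting by the last entry.
PROOF. (a) A list in `srt (b+1) (s+1)` either has all entries `< b`, i.e. lies in `srt b (s+1)`, or
its last entry is `b` (nondecreasing, entries `≤ b`) and it is `l ++ [b]` with `l ∈ srt (b+1) s`;
conversely `l ++ [b]` is in `srt (b+1) (s+1)` for `l ∈ srt (b+1) s`. The two cases exclude each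
other and `l ↦ l ++ [b]` is injective.
(b) For `j ≤ c` the lists in `srt (b+1) c` of the form `l' ++ replicate j b` are exactly the
`w ++ replicate j b` with `w ∈ srt (b+1) (c - j)` (injective). -/
def sLST : Prop := (∀ (b s : ℕ) (Z : List ℕ → Prop), num (srt (b + 1) (s + 1)) Z =
    num (srt b (s + 1)) Z + num (srt (b + 1) s) (fun l => Z (l ++ [b]))) ∧
  (∀ (b c j : ℕ) (Z : List ℕ → Prop), j ≤ c → num (srt (b + 1) c) Z =
    num (srt (b + 1) c) (fun l => Z l ∧ ¬ ∃ l', l = l' ++ List.replicate j b) +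
    num (srt (b + 1) (c - j)) (fun w => Z (w ++ List.replicate j b)))

/-- MODULE REG (about 40 lines). Equality of counts gives the extension property.
PROOF. By LST (a) with `Z := St` and the hypothesis,
`num (srt (b+1) s) (fun l => St (l ++ [b])) = num (srt (b+1) s) St`. By `Pre`, for `l ∈ srt (b+1) s`
`St (l ++ [b])` implies `St l` (`l ++ [b]` is nondecreasing). So one filter is contained in the
other and both have the same number of elements (`Finset.eq_of_subset_of_card_le`), so they are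
equal. -/
def sREG : Prop := sLST → ∀ (St : List ℕ → Prop), Pre St → ∀ b s : ℕ,
  num (srt (b + 1) (s + 1)) St = num (srt b (s + 1)) St + num (srt (b + 1) s) St →
  ∀ l ∈ srt (b + 1) s, St l → St (l ++ [b])

/-- MODULE TRB (about 120 lines). Transport inequality below the threshold, for counts.
PROOF. Write `N := M - 1`, `M = N + 1`, `e := d - j`.
`Ext M (d-1) ν St` holds: let `s < d - 1`, `l ∈ srt M s`, `b < M`, all entries of `l` at most `b`
(so `l ∈ srt (b+1) s`), `ν (s+1) ≤ b`, `St l`; the hypothesis gives the equality of counts for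
`s, b` and REG gives `St (l ++ [b])`.
Put `κ := num (srt M (d-1)) (fun v => St v ∧ ¬ St (v ++ [N]))`,
`k := num (srt M e) (fun w => St w ∧ ¬ St (w ++ replicate j N))`.
LST (a) with `s + 1 = d`, `b = N`: `num (srt M d) St = num (srt N d) St + #{v : St (v ++ [N])}` and
by `Pre` `#{v ∈ srt M (d-1) : St (v ++ [N])} = num (srt M (d-1)) St - κ`; so
`κ = num (srt M (d-1)) St - num (srt M d) St + num (srt (M-1) d) St` (as real numbers).
LST (b): `num (srt M d) St = num (srt M d) (St ∧ not ending in N^j) + #{w : St (w ++ N^j)}` and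
(by `Pre` repeated) `#{w : St (w ++ N^j)} = num (srt M e) St - k`, so
`X ≤ num (srt M d) St - num (srt M e) St + k`, i.e. `X - num (srt M d) St + num (srt M e) St ≤ k`.
MNB: `k * n ≤ κ * m` with `n := (tl M ν 0 (d-1) 0).card`, `m := (tl M ν 0 e 0).card`; OML:
`m ≤ num (srt M e) St` (`e ≤ d - 1`); CNT: `L := num (srt M (d-1)) St - ∑ ... ≤ n`, and `0 ≤ L`.
If `x := X - num (srt M d) St + num (srt M e) St ≤ 0` the left side is `≤ 0 ≤` the right side
(`κ ≥ 0`). Otherwise `x * L ≤ k * n ≤ κ * m ≤ κ * num (srt M e) St`. -/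
def sTRB : Prop := cMNB → sCNT → sDEC → sOML → sEXT → sLST → sREG →
  ∀ (j d M : ℕ) (ν : ℕ → ℕ) (St : List ℕ → Prop), 1 ≤ j → j + 1 ≤ d → 1 ≤ M → (∀ s, ν s < M) →
    Up St → Pre St → St [] →
    (∀ s, s + 1 < d → ∀ b, ν (s + 1) ≤ b → b < M →
      num (srt (b + 1) (s + 1)) St = num (srt b (s + 1)) St + num (srt (b + 1) s) St) →
    ∀ X : ℕ, X ≤ num (srt M d) (fun l => St l ∧ ¬ ∃ l', l = l' ++ List.replicate j (M - 1)) →
    0 ≤ (num (srt M (d - 1)) St : ℝ) -
      ∑ s ∈ Finset.Icc 1 (d - 1), (num (srt (ν s) s) St : ℝ) * (M : ℝ) ^ (d - 1 - s) →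
    ((X : ℝ) - num (srt M d) St + num (srt M (d - j)) St) *
      ((num (srt M (d - 1)) St : ℝ) -
        ∑ s ∈ Finset.Icc 1 (d - 1), (num (srt (ν s) s) St : ℝ) * (M : ℝ) ^ (d - 1 - s)) ≤
    ((num (srt M (d - 1)) St : ℝ) - num (srt M d) St + num (srt (M - 1) d) St) *
      num (srt M (d - j)) St

/-- MODULE UPB (about 150 lines). Upward closed sets of standard lists consist mostly of regular
lists. Here `U` is a property such that `U l` implies `St l` and `U` is upward closed.
PROOF. Let `c ≥ 1` be the length, `Om := tl M ν 0 c 0`, `u0 := num Om U`. DEC with `Z := U`: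
`num (srt M c) U = ∑ i ≤ c, ∑ p ∈ irr M ν i, U_p`, `U_p := num (tl M ν i (c-i) (p.getLastD 0))
(fun τ => U (p ++ τ))`. The term `i = 0` is `u0`. Let `1 ≤ i ≤ c`, `p ∈ irr M ν i`,
`a := p.getLastD 0`, `T := tl M ν i (c-i) a`. If `U_p ≠ 0` then `St p` (by `Pre`), and `p` lies in
`srt (ν i) i` (nondecreasing, last entry `< ν i`). So it suffices to show for each such `p`:
`U_p * (M - ν0) ^ c ≤ u0 * M ^ (c - i) * c!` (then sum over `p ∈ srt (ν i) i`, `St p`).
For `q ∈ tl M ν 0 i 0` with all entries `≥ ν0`: `LeL p q` (entries of `p` are `< ν i ≤ ν0`). Put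
`x := q.getLastD 0 ≥ a`. By FKG on `T` for the two nondecreasing indicator functions of
`τ ↦ U (p ++ τ)` and `τ ↦ (∀ y ∈ τ, x ≤ y)`:
`U_p * (tl M ν i (c-i) x).card ≤ T.card * #{τ ∈ T : U (p ++ τ), all entries ≥ x}` and for such `τ`,
`τ ∈ tl M ν i (c-i) x` and `U (q ++ τ)` (`U` upward closed). So
`U_p * (tl M ν i (c-i) x).card ≤ T.card * num (tl M ν i (c-i) (q.getLastD 0)) (fun τ => U (q ++ τ))`.
Sum over the `q ∈ tl M ν 0 i 0` with all entries `≥ ν0` (SPL with `i := 0`, `t := i`, `u := c - i`):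
the right side is at most `T.card * u0 ≤ M ^ (c-i) * u0`; the left side is
`U_p * #{v ∈ Om : the first i entries are ≥ ν0}`, at least
`U_p * #{v ∈ srt M c : all entries ≥ ν0}` (`i ≥ 1`; such `v` are regular as `ν s ≤ ν0`). Shifting
by `ν0`, the last number is `(srt (M - ν0) c).card`, and `(M - ν0) ^ c ≤ c! * (srt (M - ν0) c).card`
because sorting maps the `(M - ν0) ^ c` functions `Fin c → Fin (M - ν0)` onto the nondecreasing
ones, each having at most `c!` preimages (or: `(srt N c).card = (N + c - 1).choose c` is the number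
of multisets and `N ^ c ≤ c! * (N + c - 1).choose c`, `Nat.pow_le_...ascFactorial`). -/
def sUPB : Prop := sFKG → sSPL → sDEC →
  ∀ (M c ν0 : ℕ) (ν : ℕ → ℕ) (St U : List ℕ → Prop), 1 ≤ c → (∀ s, ν s ≤ ν0) → ν0 < M →
    Pre St → (∀ l ∈ srt M c, U l → St l) →
    (∀ l ∈ srt M c, ∀ l' ∈ srt M c, LeL l l' → U l → U l') →
    num (srt M c) U * (M - ν0) ^ c ≤ num (tl M ν 0 c 0) U * ((M - ν0) ^ c +
      ∑ s ∈ Finset.Icc 1 c, num (srt (ν s) s) St * M ^ (c - s) * c.factorial)

/-- MODULE TRA (about 130 lines). Transport inequality for use above the threshold, for counts.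
PROOF. `N := M - 1`, `e := d - j`, `Ext M (d-1) ν St` as in TRB. Let `U v := St v ∧ St (v ++ [N])`
on lists of length `d - 1`; `R w := St (w ++ replicate j N)` on lists of length `e`.
(1) LST (a): `num (srt M (d-1)) U = num (srt M d) St - num (srt (M-1) d) St` (`Pre`).
(2) LST (b): `ρ := num (srt M e) R ≤ num (srt M d) St - X`.
(3) `U` is upward closed on `srt M (d-1)` (`Up`; appending `N` to both sides). UPB with `c = d - 1`:
`num (srt M (d-1)) U ≤ (1 + Δ) * u0`, `u0 := num (tl M ν 0 (d-1) 0) U`,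
`Δ := ∑ s, num (srt (ν s) s) St * M ^ (d-1-s) * (d-1)! / (M - ν0) ^ (d-1)`.
(4) `U v` implies `R (v.take e)` for `v ∈ tl M ν 0 (d-1) 0`: `v ++ [N]` is pointwise at most
`v.take e ++ replicate j N` (`d - 1 - e + 1 = j`), use `Up`. So
`u0 ≤ num (tl M ν 0 (e + (j-1)) 0) (fun v => R (v.take e))`, and by `cALU` (`i = 0`, `t = e`,
`u = j - 1`, `a = 0`; `R` is upward closed)
`u0 * m ≤ num (tl M ν 0 e 0) R * n ≤ ρ * n` with `n := (tl M ν 0 (d-1) 0).card`,
`m := (tl M ν 0 e 0).card`.
(5) OML: `n ≤ num (srt M (d-1)) St`. CNT: `num (srt M e) St - ∑ ... ≤ m`.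
So (if the bracket `num (srt M e) St - ∑ ...` is `≤ 0` the left side is `≤ 0` and the right side
`≥ 0`; note `num (srt M d) St - X ≥ ρ ≥ 0`): left side `≤ (1 + Δ) u0 m ≤ (1 + Δ) ρ n ≤` right side. -/
def sTRA : Prop := cALU → sUPB → sFKG → sSPL → sDEC → sCNT → sOML → sEXT → sLST → sREG →
  ∀ (j d M ν0 : ℕ) (ν : ℕ → ℕ) (St : List ℕ → Prop), 1 ≤ j → j + 1 ≤ d → (∀ s, ν s ≤ ν0) →
    ν0 < M → Up St → Pre St → St [] →
    (∀ s, s + 1 < d → ∀ b, ν (s + 1) ≤ b → b < M →
      num (srt (b + 1) (s + 1)) St = num (srt b (s + 1)) St + num (srt (b + 1) s) St) →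
    ∀ X : ℕ, X ≤ num (srt M d) (fun l => St l ∧ ¬ ∃ l', l = l' ++ List.replicate j (M - 1)) →
    ((num (srt M d) St : ℝ) - num (srt (M - 1) d) St) *
      ((num (srt M (d - j)) St : ℝ) -
        ∑ s ∈ Finset.Icc 1 (d - j), (num (srt (ν s) s) St : ℝ) * (M : ℝ) ^ (d - j - s)) ≤
    (1 + ∑ s ∈ Finset.Icc 1 (d - 1), (num (srt (ν s) s) St : ℝ) * (M : ℝ) ^ (d - 1 - s) *
        ((d - 1).factorial : ℝ) / ((M : ℝ) - ν0) ^ (d - 1)) *
      (((num (srt M d) St : ℝ) - X) * num (srt M (d - 1)) St)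

end Pool.Agent.Helper65.HF
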