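import Mathlib
import Pool.Agent.Helper65.HF.Defs

/-!
Project HF, part A: the algebra (monomials, reverse lexicographic leading monomials, generic
coefficients). All modules are independent: what is needed is a hypothesis of the statement.
-/

namespace Pool.Agent.Helper65.HF

open MvPolynomial Pool.Agent.Helper45

/-- The linear form number `i` in `N` variables with coefficients `P i 0, ..., P i (N-1)`. -/
noncomputable def lf {A : Type} [CommRing A] (P : ℕ → ℕ → A) (N i : ℕ) :
    MvPolynomial (Fin N) A := ∑ s : Fin N, C (P i s) * X s

/-- The ideal generated by the `j`-th powers of the linear forms number `0, ..., r-1`. -/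
noncomputable def idl {A : Type} [CommRing A] (P : ℕ → ℕ → A) (j N r : ℕ) :
    Ideal (MvPolynomial (Fin N) A) :=
  Ideal.span {f | ∃ i, i < r ∧ f = lf P N i ^ j}

/-- Reverse lexicographic comparison of exponents: `b` is larger than `m` (at the last variable
where they differ `b` has the smaller exponent). -/
def RL {N : ℕ} (m b : Fin N →₀ ℕ) : Prop := ∃ u, b u < m u ∧ ∀ u', u < u' → b u' = m u'

/-- `m` is the leading exponent of a form of the ideal `J`. -/
def Ld {A : Type} [CommRing A] {N : ℕ} (J : Ideal (MvPolynomial (Fin N) A))
    (m : Fin N →₀ ℕ) : Prop :=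
  ∃ f ∈ J, f.IsHomogeneous m.degree ∧ f.coeff m ≠ 0 ∧ ∀ b, RL m b → f.coeff b = 0

/-- The generic coefficients as polynomials. -/
noncomputable def gP (k : Type) [Field k] : ℕ → ℕ → MvPolynomial (ℕ × ℕ) k :=
  fun i s => X (i, s)

/-- The generic coefficients as rational functions. -/
noncomputable def gF (k : Type) [Field k] : ℕ → ℕ → FractionRing (MvPolynomial (ℕ × ℕ) k) :=
  fun i s => algebraMap (MvPolynomial (ℕ × ℕ) k) (FractionRing (MvPolynomial (ℕ × ℕ) k)) (X (i, s))

/-- The exponent of a list of variables. -/
noncomputable def mon (N : ℕ) (l : List ℕ) : Fin N →₀ ℕ :=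
  Finsupp.equivFunOnFinite.symm fun u : Fin N => l.count (u : ℕ)

/-- Standard lists: lists whose monomial is not a leading monomial. -/
def StA (k : Type) [Field k] (j r : ℕ) (l : List ℕ) : Prop :=
  ∀ N, (∀ x ∈ l, x < N) → ¬ Ld (idl (gP k) j N r) (mon N l)

/-- The relation `RL` is a strict total order, compatible with addition. -/
def cRLO : Prop := ∀ N : ℕ, (∀ m : Fin N →₀ ℕ, ¬ RL m m) ∧
  (∀ m b c : Fin N →₀ ℕ, RL m b → RL b c → RL m c) ∧
  (∀ m b : Fin N →₀ ℕ, m = b ∨ RL m b ∨ RL b m) ∧
  (∀ m b x : Fin N →₀ ℕ, RL (m + x) (b + x) ↔ RL m b) ∧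
  (∀ (m : Fin N →₀ ℕ) (s t : Fin N), s < t → 1 ≤ m t →
    RL m (m - Finsupp.single t 1 + Finsupp.single s 1))

/-- MODULE RLO (about 60 lines).
PROOF. Irreflexive: clear. Transitive: if `m, b` differ last at `u` and `b, c` differ last at `v`
(with `b u < m u`, `c v < b v`) take `max u v`. Trichotomy: if `m ≠ b` let `u` be the largest index
with `m u ≠ b u` (finite linear order); compare `m u` and `b u`. Compatibility: pointwise
`Finsupp.add_apply`. Last claim: take `u := t`: the value of the new exponent at `t` is `m t - 1`
(as `s ≠ t`), and for `u' > t` (so `u' ≠ s, t`) it is `m u'`. -/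
def sRLO : Prop := cRLO

/-- MODULE ECH (about 90 lines). The number of leading positions of a subspace is its dimension.
PROOF. Induction on the number of elements of `ι` (or on `finrank`). For `i : ι` let
`J_i := {f ∈ J : f b = 0 for all b with r i b}` (positions larger than `i` vanish) and
`J_i' := {f ∈ J_i : f i = 0}`. Enumerate `ι` increasingly as `i_1, ..., i_n`; then
`0 = J_{i_1}' ≤ J_{i_1} = J_{i_2}' ≤ J_{i_2} = ... ≤ J_{i_n} = J`, and
`finrank J_i - finrank J_i'` is `1` if some `f ∈ J_i` has `f i ≠ 0` and `0` otherwise (the kernel of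
the functional `f ↦ f i` on `J_i`). Alternative: choose for each leading position `i` an element
`f_i ∈ J` with `f_i i ≠ 0` and zero at larger positions; these are linearly independent (triangular,
look at the largest position with nonzero coefficient) and span `J` (given `f ∈ J`, `f ≠ 0`, its
largest nonzero position is a leading position; subtract a multiple of the corresponding `f_i`;
well-founded induction on the largest nonzero position). So they form a basis of `J`. -/
def sECH : Prop := ∀ (F : Type) [Field F] (ι : Type) [Fintype ι] (r : ι → ι → Prop),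
  (∀ i, ¬ r i i) → (∀ i b c, r i b → r b c → r i c) → (∀ i b, i = b ∨ r i b ∨ r b i) →
  ∀ J : Submodule F (ι → F),
    Nat.card {i : ι // ∃ f ∈ J, f i ≠ 0 ∧ ∀ b, r i b → f b = 0} = Module.finrank F J

/-- The leading exponents of a space of forms of degree `c`. -/
def cCNV : Prop := ∀ (F : Type) [Field F] (N c : ℕ) (V : Submodule F (MvPolynomial (Fin N) F)),
  V ≤ homogeneousSubmodule (Fin N) F c →
  Nat.card {m : Fin N →₀ ℕ // m.degree = c ∧ ∃ f ∈ V, f.coeff m ≠ 0 ∧
    ∀ b, RL m b → f.coeff b = 0} = Module.finrank F V

/-- MODULE CNV (about 70 lines).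
PROOF. Let `ι := {m : Fin N →₀ ℕ // m.degree = c}` (finite: `Pool.Agent.Helper45.finite_degree` in
FatGen.lean, or `Finset.finsuppAntidiag`). The linear map `f ↦ (i ↦ f.coeff i)` from polynomials to
`ι → F` is injective on `homogeneousSubmodule (Fin N) F c` (coefficients at other degrees vanish,
`IsHomogeneous.coeff_eq_zero`), so `V` and its image `J` have the same dimension. For `i ∈ ι` the
condition `∃ f ∈ V, f.coeff i ≠ 0 ∧ ∀ b, RL i b → f.coeff b = 0` is the condition of ECH for `J` and
the relation `RL` on `ι` (for `b` of degree different from `c` the coefficient vanishes anyway). Use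
ECH with the order properties from RLO, and the bijection of
`{m // m.degree = c ∧ Q m}` with `{i : ι // Q i}`. -/
def sCNV : Prop := sECH → cRLO → cCNV

/-- The leading exponents of the generic ideal may be moved to smaller variables. -/
def cDRV : Prop := ∀ (k : Type) [Field k] [CharZero k] (j N r : ℕ) (m : Fin N →₀ ℕ)
  (s t : Fin N), s < t → 1 ≤ m t → Ld (idl (gP k) j N r) m →
  Ld (idl (gP k) j N r) (m - Finsupp.single t 1 + Finsupp.single s 1)

/-- MODULE DRV (about 180 lines). Strong stability.
PROOF. `R := MvPolynomial (ℕ × ℕ) k`. Let `δ : Derivation k R R` be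
`mkDerivation k (fun p => if p.2 = s then - X (p.1, t) else 0)` (values of `s t : Fin N` as natural
numbers). Define the additive map `Δ : MvPolynomial (Fin N) R → MvPolynomial (Fin N) R` acting on
coefficients, `coeff b (Δ f) = δ (coeff b f)` (for instance `Finsupp.mapRange`; or as a sum over
the support), and `D f := Δ f + X s * pderiv t f`. Facts:
(1) `Δ (f * g) = Δ f * g + f * Δ g` (compare coefficients: `coeff_mul` is a sum over the
antidiagonal and `δ` is a derivation; or induction on monomials), `pderiv t` is a derivation, hence
`D (f * g) = D f * g + f * D g`, so `D (f ^ j) = j * f ^ (j-1) * D f` (or: if `D f = 0` then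
`D (f ^ j) = 0` by induction on `j`; `D 1 = 0`).
(2) `D (lf (gP k) N i) = 0`: `Δ (∑_u C (X (i,u)) * X u) = ∑_u C (δ X (i,u)) * X u = - C (X (i,t)) *
X s` and `pderiv t (∑_u C (X (i,u)) X u) = C (X (i,t))`.
(3) Hence `D (g * (lf ..) ^ j) = D g * (lf ..) ^ j` and `D` maps `J := idl (gP k) j N r` into itself
(`D` is additive; every element of the span is a sum of such products,
`Submodule.span_induction`/`Ideal.mem_span...`).
(4) `D` maps forms of degree `c` to forms of degree `c`: the coefficients of `Δ f` vanish where
those of `f` do, and `coeff b (X s * pderiv t f)` is `0` if `b s = 0` and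
`((b - single s 1) t + 1) * coeff (b - single s 1 + single t 1) f` otherwise
(`coeff_X_mul'`, `coeff_pderiv`); the degree of `b - single s 1 + single t 1` is that of `b`.
(5) Let `f ∈ J` be a form with leading exponent `m` (coefficient `≠ 0` at `m`, zero at all `b` with
`RL m b`), `m' := m - single t 1 + single s 1`; `RL m m'` (RLO). Then `coeff m' (Δ f) = δ 0 = 0` and
`coeff m' (X s * pderiv t f) = (m t) * coeff m f ≠ 0` (`m' s ≥ 1`,
`m' - single s 1 + single t 1 = m`, `(m' - single s 1) t + 1 = m t ≥ 1`; characteristic zero and
`R` a domain). For `b` with `RL m' b`: `RL m b` by transitivity, so `coeff b (Δ f) = 0`; and if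
`b s ≥ 1` then `RL m (b - single s 1 + single t 1)`, because adding `single s 1` on both sides and
`m + single s 1 = m' + single t 1`, `(b - single s 1 + single t 1) + single s 1 = b + single t 1`,
this is `RL (m' + single t 1) (b + single t 1)`, i.e. `RL m' b`. So `coeff b (D f) = 0`. The degree
of `m'` is that of `m`. So `D f` shows that `m'` is a leading exponent. -/
def sDRV : Prop := cRLO → cDRV

/-- Leading exponents over the ring of polynomials and over its fraction field agree. -/
def cCLR : Prop := ∀ (k : Type) [Field k] (j N r : ℕ) (m : Fin N →₀ ℕ),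
  Ld (idl (gF k) j N r) m ↔ Ld (idl (gP k) j N r) m

/-- MODULE CLR (about 100 lines). Clearing denominators.
PROOF. `R := MvPolynomial (ℕ × ℕ) k`, `F` its fraction field, `φ := map (algebraMap R F)` from
`MvPolynomial (Fin N) R` to `MvPolynomial (Fin N) F`, injective, `φ (lf (gP k) N i) = lf (gF k) N i`.
(From right to left) if `f ∈ idl (gP k) j N r` shows `Ld` then `φ f ∈ idl (gF k) j N r`
(`Ideal.span_induction` or `Ideal.map`), homogeneous, coefficients are mapped by the injective map.
(From left to right) let `f = ∑ i < r, g i * (lf (gF k) N i) ^ j` (elements of the span of a finite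
family; e.g. by span induction show: for every `f` in the ideal there is `q ≠ 0` in `R` and
`f' ∈ idl (gP k) j N r` with `φ f' = C (algebraMap q) * f`: for generators `q = 1`; sums: use
`q q'`; multiples `g * f`: choose `q'' ≠ 0` with `C q'' * g = φ g'` (a common denominator of the
finitely many coefficients of `g`: `IsLocalization.exist_integer_multiples`), then
`φ (g' * f') = C (q q'') * g * f`.) Then `f'` has coefficients `q * coeff b f` (in `F`), so they
vanish exactly where those of `f` do, and `f'` is homogeneous of the same degree. -/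
def sCLR : Prop := cCLR

/-- MODULE SPC (about 130 lines). The rank over the field of rational functions is the largest rank
of a specialization.
PROOF. As in `Pool.Agent.Helper45.semicont` (FatSemi.lean; copy its proof; `extFun`,
`eval_extFun`). Let `R := MvPolynomial τ k`, `F` its fraction field.
(First claim) Let `N` be the rank at `P0`, `a : Fin N → ι'` with the `map (eval P0) (W (a i))`
linearly independent, dual functionals `l i` on `MvPolynomial σ k`; `G := det (extFun (l i)
(W (a i')))` satisfies `eval P0 G = 1`, so `G ≠ 0` in `R` and in `F`. Extend `l i` to `F`-linear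
functionals `L i` on `MvPolynomial σ F` (value `algebraMap (l i (monomial v 1))` on `monomial v 1`);
then `L i (map (algebraMap R F) (W (a i'))) = algebraMap (extFun (l i) (W (a i')))`, and the
determinant of these values is nonzero, so the `N` polynomials over `F` are linearly independent,
the rank over `F` is at least `N`.
(Second claim) Let `N` be the rank over `F`, `a : Fin N → ι'` with `V i := map (algebraMap R F)
(W (a i))` linearly independent over `F`. There are exponents `v : Fin N → (σ →₀ ℕ)` such that the
matrix `(coeff (v i) (V i'))` has nonzero determinant (the coefficient vectors are linearly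
independent in the space of functions on the finite union of the supports: a matrix with linearly
independent rows has an invertible square submatrix; or choose the exponents one at a time by
induction). Its determinant is the image of `G := det (coeff (v i) (W (a i'))) ∈ R`, so `G ≠ 0`;
`k` infinite gives `P` with `eval P G ≠ 0` (`MvPolynomial.funext`), and then the
`map (eval P) (W (a i))` are linearly independent over `k` (their coefficient matrix at the `v i`
has determinant `eval P G ≠ 0`), so the rank at `P` is at least `N`. -/
def sSPC : Prop := ∀ (k : Type) [Field k] [Infinite k] (σ τ ι' : Type) [Finite ι']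
  (W : ι' → MvPolynomial σ (MvPolynomial τ k)),
  (∀ P : τ → k, Module.finrank k (Submodule.span k (Set.range fun i => map (eval P) (W i))) ≤
    Module.finrank (FractionRing (MvPolynomial τ k))
      (Submodule.span (FractionRing (MvPolynomial τ k)) (Set.range fun i =>
        map (algebraMap (MvPolynomial τ k) (FractionRing (MvPolynomial τ k))) (W i)))) ∧
  (∃ P : τ → k, Module.finrank (FractionRing (MvPolynomial τ k))
      (Submodule.span (FractionRing (MvPolynomial τ k)) (Set.range fun i =>
        map (algebraMap (MvPolynomial τ k) (FractionRing (MvPolynomial τ k))) (W i))) ≤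
    Module.finrank k (Submodule.span k (Set.range fun i => map (eval P) (W i))))

/-- The graded parts of the ideal. -/
def cPRT : Prop := ∀ (F : Type) [Field F] (P : ℕ → ℕ → F) (j N r c : ℕ),
  (j ≤ c → (homogeneousSubmodule (Fin N) F c ⊓ (idl P j N r).restrictScalars F :
      Submodule F (MvPolynomial (Fin N) F)) =
    Gr.setPart (Gr.pw (fun (a : Fin r) (s : Fin N) => P a s) j) Finset.univ (c - j)) ∧
  (c < j → (homogeneousSubmodule (Fin N) F c ⊓ (idl P j N r).restrictScalars F :
      Submodule F (MvPolynomial (Fin N) F)) = ⊥)

/-- MODULE PRT (about 80 lines).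
PROOF. `lf P N i = linForm (fun s => P i s)` is homogeneous of degree `1` (`linForm`, `Gr.pw`,
`Gr.setPart`, `Gr.mul_mem_setPart` in Helper45/FatGen.lean, GrBase.lean). Every element of the
ideal is a finite sum `f = ∑ i : Fin r, g i * (lf P N i) ^ j` (`Ideal.mem_span_range_iff_exists_fun`
or span induction). If `f` is a form of degree `c` then `f = homogeneousComponent c f =
∑ i, homogeneousComponent c (g i * (lf ..) ^ j)`, and by
`Pool.Agent.Helper45.homogeneousComponent_mul_right` (FatHilb.lean) each term is
`homogeneousComponent (c - j) (g i) * (lf ..) ^ j` if `j ≤ c` and `0` if `c < j`. So `f` is in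
`setPart` resp. `0`. Conversely `setPart ≤` both (`Gr.setPart_le` with `(c - j) + j = c`; products
are in the ideal). -/
def sPRT : Prop := cPRT

/-- The generic rank. -/
def cGNR : Prop := ∀ (k : Type) [Field k] [Infinite k] (j N r E : ℕ),
  Module.finrank (FractionRing (MvPolynomial (ℕ × ℕ) k))
    (Gr.setPart (Gr.pw (fun (a : Fin r) (s : Fin N) => gF k a s) j) Finset.univ E) =
  Gr.gen k (Fin N) j E r

/-- MODULE GNR (about 80 lines).
PROOF. SPC with `σ := Fin N`, `τ := ℕ × ℕ`, `ι' := Fin r × {v : Fin N →₀ ℕ // v.degree = E}` (finite: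
`Pool.Agent.Helper45.finite_degree`), `W (a, v) := (lf (gP k) N a) ^ j * monomial v 1`.
`Gr.setPart_eq_span` describes `setPart` as the span of the products (index type
`Finset.univ × {v}`; transport to `Fin r × {v}`), over `F` for the generic coefficients, over `k`
for `P : ℕ × ℕ → k` with the points `(a, s) ↦ P (a, s)`. (`map (eval P) (W (a,v))` is
`linForm (P (a, ·)) ^ j * monomial v 1`, compare `map_powFam`.) Every family
`Q : Fin r → Fin N → k` is of the form `(a, s) ↦ P (a, s)` (extend by `0`). So first claim of SPC:
every rank over `k` is at most the rank over `F`, so `gen ≤` (by `Gr.gen_attained`); second claim: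
the rank over `F` is at most one rank over `k`, at most `gen` (`Gr.gen` is a supremum,
`le_csSup (Gr.gen_bdd ..)`). -/
def sGNR : Prop := sSPC → cGNR

/-- Adding the power of the last variable. -/
def cSEM : Prop := ∀ (k : Type) [Field k] [Infinite k] (j N r E : ℕ),
  Module.finrank (FractionRing (MvPolynomial (ℕ × ℕ) k))
    (Gr.setPart (Gr.pw (fun (a : Fin r) (s : Fin (N + 1)) => gF k a s) j) Finset.univ E ⊔
      (homogeneousSubmodule (Fin (N + 1)) (FractionRing (MvPolynomial (ℕ × ℕ) k)) E).map
        (LinearMap.mulLeft (FractionRing (MvPolynomial (ℕ × ℕ) k)) (X (Fin.last N) ^ j)) :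
      Submodule (FractionRing (MvPolynomial (ℕ × ℕ) k))
        (MvPolynomial (Fin (N + 1)) (FractionRing (MvPolynomial (ℕ × ℕ) k)))) ≤
  Gr.gen k (Fin (N + 1)) j E (r + 1)

/-- MODULE SEM (about 100 lines).
PROOF. SPC (second claim) with the family indexed by `(Fin r ⊕ Unit) × {v // v.degree = E}`,
`W (inl a, v) := (lf (gP k) (N+1) a) ^ j * monomial v 1`, `W (inr (), v) := X (last N) ^ j *
monomial v 1`: the rank over `F` of the displayed space (a span of these products: see
`Gr.setPart_eq_span` and its proof for the second summand) is at most the rank over `k` at some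
`P`, which is the dimension of `setPart (pw Q j) univ E` for the `r + 1` points
`Q : Fin (r+1) → Fin (N+1) → k`, `Q i = P (i, ·)` for `i < r` (`Fin.snoc` or `if`), `Q r` the last
unit vector (`linForm` of it is `X (last N)`); this is at most `gen k (Fin (N+1)) j E (r+1)`
(`le_csSup (Gr.gen_bdd ..)`). -/
def sSEM : Prop := sSPC → cSEM

/-- Independence of the number of variables. -/
def cCPT : Prop := ∀ (F : Type) [Field F] (P : ℕ → ℕ → F) (j N N' r : ℕ) (l : List ℕ), N ≤ N' →
  (∀ x ∈ l, x < N) → (Ld (idl P j N r) (mon N l) ↔ Ld (idl P j N' r) (mon N' l))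

/-- MODULE CPT (about 140 lines).
PROOF. Let `φ : MvPolynomial (Fin N') F →ₐ MvPolynomial (Fin N) F`, `X s ↦ X s` if `s < N` and
`X s ↦ 0` otherwise (or `killCompl` for the inclusion `Fin.castLE`; see
`Pool.Agent.Helper45.killCompl_linForm`, `killCompl_isHomogeneous` in ShPts.lean, and
`rename (Fin.castLE h)` for the section). `φ (lf P N' i) = lf P N i`; for an exponent `b` on `Fin N`
let `b^` be its extension by zero; `coeff b (φ f) = coeff b^ f`; `(mon N l)^ = mon N' l` as
`l.count u = 0` for `u ≥ N`; `RL m b ↔ RL m^ b^`; degrees agree.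
(From right to left) apply `φ` to the form: it is homogeneous of the same degree, in
`idl P j N r`, coefficient at `mon N l` nonzero, zero at `b` with `RL (mon N l) b`.
(From left to right) let `f` be a form of degree `c` in `idl P j N r` with leading exponent
`mon N l`. By `cPRT` and `Gr.mem`-type lemmas, or directly, `f = ∑ i : Fin r, g i * (lf P N i) ^ j`
with `g i` homogeneous of degree `c - j` (if `c < j` then `f = 0`, impossible). Put
`f' := ∑ i, rename (g i) * (lf P N' i) ^ j`, a form of degree `c` in `idl P j N' r` with
`φ f' = f`. So `coeff (mon N' l) f' = coeff (mon N l) f ≠ 0`. Let `RL (mon N' l) b` for an exponent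
`b` on `Fin N'`. Then `b u = 0` for all `u ≥ N`: otherwise at the last index `u` where `b` and
`mon N' l` differ we have `u ≥ N`, `mon N' l u = 0`, contradiction to `b u < mon N' l u`. So
`b = b'^` and `coeff b f' = coeff b' f = 0` as `RL (mon N l) b'`. -/
def sCPT : Prop := cPRT → cCPT

/-- Lists and exponents. -/
def cLSM : Prop := (∀ (N c : ℕ) (Q : (Fin N →₀ ℕ) → Prop),
    num (srt N c) (fun l => Q (mon N l)) = Nat.card {m : Fin N →₀ ℕ // m.degree = c ∧ Q m}) ∧
  (∀ (N : ℕ) (l : List ℕ) (b : Fin N), mon N (l ++ [(b : ℕ)]) = mon N l + Finsupp.single b 1) ∧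
  (∀ (N : ℕ) (l l' : List ℕ) (x y : Fin N), mon N (l ++ (x : ℕ) :: l') =
    mon N (l ++ (y : ℕ) :: l') - Finsupp.single y 1 + Finsupp.single x 1 ∧
    1 ≤ mon N (l ++ (y : ℕ) :: l') y) ∧
  (∀ (N : ℕ) (l : List ℕ), (∀ x ∈ l, x < N) → (mon N l).degree = l.length)

/-- MODULE LSM (about 100 lines).
PROOF. `(mon N l) u = l.count u` by definition (`Finsupp.equivFunOnFinite_symm_apply`...).
(1) `l ↦ mon N l` is a bijection from `srt N c` onto the exponents of degree `c`: injective since a
nondecreasing list is determined by the numbers of occurrences (`List.perm_iff_count` and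
`List.Perm.eq_of_pairwise`/`List.Perm.eq_of_sorted`), surjective: for `m` of degree `c` take the
sorted list of the multiset with `m u` copies of `u` (e.g. `(m.toMultiset.map (↑)).sort`), of
length `c`. So the number of `l ∈ srt N c` with `Q (mon N l)` is the number of `m` of degree `c`
with `Q m` (`Nat.card_congr`, `Nat.card_eq_card_toFinset`, `Finset.card_bij`...).
(2), (3) `List.count_append`, `List.count_cons`, pointwise.
(4) The degree is `∑ u : Fin N, l.count u`, the length of `l` if all entries are `< N`
(induction on `l`, or `Multiset.sum_count`-type lemmas). -/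
def sLSM : Prop := cLSM

/-- MODULE MUX (about 40 lines). Multiplying by a variable.
PROOF. If `f` shows `Ld J m` take `f * X s`: in `J`, homogeneous of degree `m.degree + 1`;
`coeff (m + single s 1) (f * X s) = coeff m f ≠ 0` (`coeff_mul_X`); for `b` with
`RL (m + single s 1) b`: if `b s = 0` the coefficient of `f * X s` at `b` is `0` (`coeff_mul_X'`);
otherwise `b = b' + single s 1`, `RL m b'` by RLO and `coeff b (f * X s) = coeff b' f = 0`. -/
def sMUX : Prop := cRLO → ∀ (A : Type) [CommRing A] (N : ℕ) (J : Ideal (MvPolynomial (Fin N) A))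
  (m : Fin N →₀ ℕ) (s : Fin N), Ld J m → Ld J (m + Finsupp.single s 1)

/-- The conclusion of MUX. -/
def cMUX : Prop := ∀ (A : Type) [CommRing A] (N : ℕ) (J : Ideal (MvPolynomial (Fin N) A))
  (m : Fin N →₀ ℕ) (s : Fin N), Ld J m → Ld J (m + Finsupp.single s 1)

/-- The conclusion of UPP. -/
def cUPP : Prop := ∀ (k : Type) [Field k] [CharZero k] (j r : ℕ),
  Up (StA k j r) ∧ Pre (StA k j r) ∧
  (∀ (N : ℕ) (l : List ℕ), (∀ x ∈ l, x < N) →
    (StA k j r l ↔ ¬ Ld (idl (gP k) j N r) (mon N l)))

/-- MODULE UPP (about 120 lines). The combinatorial properties of the standard lists.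
PROOF. (Third claim) For `N, N'` larger than all entries of `l`, `Ld (idl (gP k) j N r) (mon N l)`
iff `Ld (idl (gF k) j N r) (mon N l)` (CLR) iff the same for `N'` (CPT through `max N N'`) iff
`Ld (idl (gP k) j N' r) (mon N' l)`. So the condition does not depend on `N`.
(Pre) `St (l ++ [b])`, suppose not `St l`: with `N` larger than `b` and all entries of `l`,
`Ld (.. N ..) (mon N l)`, so by MUX `Ld (mon N l + single b 1) = Ld (mon N (l ++ [b]))`,
contradiction.
(Up) Let `LeL l l'`, both nondecreasing, `St l` and suppose not `St l'`; `N` larger than all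
entries: `Ld (mon N l')`. Change the entries of `l'` into those of `l` one at a time, from the left:
the lists `l.take i ++ l'.drop i` for `i = 0, 1, ..., length`. From `i` to `i + 1` the entry
`y = l'[i]` is replaced by `x = l[i] ≤ y`; if `x = y` nothing changes; if `x < y` then
`mon` changes by `- single y 1 + single x 1` (LSM (3)) and DRV (`s := x`, `t := y`) keeps `Ld`. At
the end `Ld (mon N l)`, contradiction. (Monotonicity of the lists is not even needed.) -/
def sUPP : Prop := cRLO → cDRV → cCLR → cCPT → cLSM → cMUX → cUPP

/-- The interface between algebra and combinatorics. -/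
def cALG : Prop := ∀ (k : Type) [Field k] [CharZero k] (j r : ℕ), 1 ≤ j →
  ∃ St : List ℕ → Prop, Up St ∧ Pre St ∧ St [] ∧
    (∀ N c, num (srt N c) St = H k j N r c) ∧
    (∀ N c, j ≤ c → H k j (N + 1) (r + 1) c ≤
      num (srt (N + 1) c) (fun l => St l ∧ ¬ ∃ l', l = l' ++ List.replicate j N))

/-- MODULE ALG (about 180 lines).
PROOF. `St := StA k j r`, `F := FractionRing (MvPolynomial (ℕ × ℕ) k)` (a field of characteristic
zero, `k` is infinite). `Up`, `Pre`, and the description of `St l` by one `N`: UPP.
(Count) For `l ∈ srt N c`: `St l ↔ ¬ Ld (idl (gP k) j N r) (mon N l) ↔ ¬ Ld (idl (gF k) j N r)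
(mon N l)` (CLR). With `Q m := Ld (idl (gF k) j N r) m`, LSM (1) and `num_add_not`:
`num (srt N c) St + Nat.card {m // m.degree = c ∧ Q m} = (srt N c).card = (N + c - 1).choose c`
(the last: LSM (1) with `Q` true and `Pool.Agent.Helper45.finrank_homog`, or CNV for
`V := homogeneousSubmodule`, whose leading exponents are all exponents of degree `c`). By CNV for
`V := homogeneousSubmodule c ⊓ idl (gF k) j N r` (its leading exponents of degree `c` are those
with `Q`) `Nat.card {m // m.degree = c ∧ Q m} = finrank V`, which is by PRT and GNR
`gen k (Fin N) j (c - j) r` if `j ≤ c` and `0` otherwise. So `num (srt N c) St = H k j N r c`.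
(`St []`) `num (srt N 0) St = H k j N r 0 = 1` (as `j ≥ 1`, `choose _ 0 = 1`) and `srt N 0 = {[]}`.
(New form) Let `j ≤ c`, `E := c - j`, `V' := setPart (...) E ⊔ (homogeneousSubmodule E).map
(mulLeft (X (last N) ^ j))` over `F` in `N + 1` variables, contained in
`homogeneousSubmodule (Fin (N+1)) F c`. By SEM `finrank V' ≤ gen k (Fin (N+1)) j E (r+1)`. By CNV
`finrank V' = Nat.card {m // m.degree = c ∧ Q' m}` with `Q' m` : `m` is the leading exponent of an
element of `V'`. `Q' m` holds if `Ld (idl (gF k) j (N+1) r) m` (PRT: `setPart` is the part of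
degree `c` of the ideal) and if `j ≤ m (last N)` (then `monomial m 1 = X (last N) ^ j *
monomial (m - single (last N) j) 1 ∈ V'`). So the number of `m` of degree `c` without `Q'`, which is
`(N + c).choose c - finrank V' ≥ (N + c).choose c - gen k (Fin (N+1)) j E (r+1) =
H k j (N+1) (r+1) c`, is at most the number of `m` of degree `c` with `¬ Ld` and
`m (last N) < j`; through LSM (1) this is
`num (srt (N+1) c) (fun l => St l ∧ l.count N < j)` and a nondecreasing list with entries `≤ N`
and at most `j - 1` entries `N` is not of the form `l' ++ replicate j N`. -/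
def sALG : Prop := cRLO → cCNV → cCLR → cPRT → cGNR → cSEM → cLSM → cUPP → cALG

end Pool.Agent.Helper65.HF
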