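import Mathlib
import Pool.Agent.Helper65.HF.Defs
import Pool.Agent.Helper65.HF.StA
import Pool.Agent.Helper65.HF.StC
import Pool.Agent.Helper45.FatApolar

/-!
Project HF, part N: the numerical part. All modules are independent: what is needed is a hypothesis
of the statement. `thr j c x = ∑_{i ≤ c/j} (-x)^i / (i! (c - i j)!)` and `IsZ j c cs` (least positive
zero) are in Helper45/ShUnif.lean and ShThr.lean, with the lemmas `thr_at_zero`, `thr_of_lt`,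
`thr_self`, `continuous_thr`, `hasDerivAt_thr`, `thr_rec`, `exists_isZ`, `isZ_le`, `isZ_nonneg`,
`isZ_pos`, `isZ_neg`.
-/

namespace Pool.Agent.Helper65.HF

open MvPolynomial Pool.Agent.Helper45

/-- The excess. -/
noncomputable def exs (k : Type) [Field k] (j d M r : ℕ) : ℝ :=
  (H k j M r d : ℝ) - (EE j M r d : ℝ)

/-- Recursions for the expected values. -/
def cREC : Prop :=
  (∀ j N r c : ℕ, 1 ≤ j → EE j (N + 1) r (c + 1) = EE j N r (c + 1) + EE j (N + 1) r c) ∧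
  (∀ j N r c : ℕ, 1 ≤ j → EE j N (r + 1) c = EE j N r c - (if j ≤ c then EE j N r (c - j) else 0)) ∧
  (∀ j N r c : ℕ, c < j → EE j N r c = ((N + c - 1).choose c : ℤ)) ∧
  (∀ j N c : ℕ, EE j N 0 c = ((N + c - 1).choose c : ℤ))

/-- MODULE REC (about 90 lines).
PROOF. (1) Extend both sums over `i` to a common range with the condition `i * j ≤ c` (resp.
`i * j ≤ c + 1`), compare `thr_eq` in Helper45/ShUnif.lean. For `i * j ≤ c` put `x := c - i * j`: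
`(N + 1 + (x + 1) - 1).choose (x + 1) = (N + (x + 1) - 1).choose (x + 1) + (N + 1 + x - 1).choose x`,
i.e. `(N + x + 1).choose (x + 1) = (N + x).choose (x + 1) + (N + x).choose x` (Pascal). For
`i * j = c + 1` the terms of `EE j (N+1) r (c+1)` and `EE j N r (c+1)` are `choose _ 0 = 1` and
there is no term in `EE j (N+1) r c`.
(2) `(r + 1).choose i = r.choose i + r.choose (i - 1)` for `i ≥ 1`; shift `i = i' + 1`,
`c - (i' + 1) * j = (c - j) - i' * j`, `c / j = (c - j) / j + 1` for `j ≤ c` (see `uval_succ` in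
Helper45/FatHilb.lean for the same computation).
(3) `c / j = 0`. (4) `(0).choose i = 0` for `i ≥ 1`. -/
def sREC : Prop := cREC

/-- Elementary properties of the generic Hilbert function. -/
def cHUP : Prop := ∀ (k : Type) [Field k] [CharZero k] (j N r c : ℕ), 1 ≤ j →
  H k j N r c ≤ (N + c - 1).choose c ∧ H k j N 0 c = (N + c - 1).choose c ∧
  (c < j → H k j N r c = (N + c - 1).choose c) ∧ H k j N (r + 1) c ≤ H k j N r c ∧
  (j ≤ c → H k j N r c ≤ H k j N (r + 1) c + H k j N r (c - j))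

/-- MODULE HUP (about 90 lines).
PROOF. Lemmas: Helper45/GrBase.lean (`gen_le_homog`, `exists_generic_tuple`, `gen_attained`),
GrN.lean (`gen_mono`), GrCount.lean (`gen_zero`), FatHilb.lean (`finrank_homog`,
`finrank_step_le`), GrFinal.lean (`degPart_eq_setPart`). First three and fourth: clear from these
(`gen 0 = 0`, `gen` monotone in the number of points). Last: let `E := c - j`. If `N = 0` then
`c ≥ j ≥ 1` and the left side is `(c - 1).choose c - .. = 0`. Let `N ≥ 1`. Choose (product of two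
nonzero polynomials and of the coordinates `X (a, 0)`, `k` infinite) points
`P : Fin (r + 1) × Fin N → k` for which all subsets `S` have the generic dimension both for
`E` and (if `j ≤ E`) for `E - j`, and all points are nonzero. With `f := powSeq P j`:
`finrank (degPart f (r+1) E) = gen (r+1)`, `finrank (degPart f r E) = gen r` (subset of the first
`r` points), `finrank (lowPart f j r E) = gen k (Fin N) j (E - j) r` if `j ≤ E` and `0` otherwise.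
`finrank_step_le`: `gen(r+1) + lowPart ≤ gen(r) + (N + E - 1).choose E`. So
`H r c - H (r+1) c = gen (r+1) - gen r ≤ (N+E-1).choose E - lowPart = H k j N r E`. -/
def sHUP : Prop := cHUP

/-- Powers of general linear forms are linearly independent. -/
def cBAS : Prop := ∀ (k : Type) [Field k] [CharZero k] (j N r : ℕ), 1 ≤ j →
  r ≤ (N + j - 1).choose j → Gr.gen k (Fin N) j 0 r = r

/-- MODULE BAS (about 60 lines).
PROOF. The `j`-th powers of linear forms span the space of forms of degree `j` in characteristic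
zero: every monomial is a product of `j` variables and lies in the span of powers
(`Pool.Agent.Helper45.prod_mem_span_pow` in Helper45/ShPolar.lean, `monomial_eq_prod` in
ShPoly.lean). So one can choose `(N + j - 1).choose j` linear forms whose `j`-th powers are a basis
(`exists_linearIndependent`), in particular `r` linear forms `Q a` with linearly independent powers
if `r ≤ (N + j - 1).choose j`. `setPart (pw Q j) univ 0` is the span of the `pw Q j a` (products with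
constants: `Gr.setPart_eq_span`, exponents of degree `0`), of dimension `r`. So `r ≤ gen`
(`le_csSup (Gr.gen_bdd ..)`). Conversely the dimension of the span of `r` elements is at most `r`
for every family (`Gr.gen_attained`, `finrank_range_le_card`). -/
def sBAS : Prop := cBAS

/-- Monotonicity in the number of variables. -/
def cMOV : Prop := ∀ (k : Type) [Field k] [CharZero k] (j N r c : ℕ), 1 ≤ j →
  H k j N r c ≤ H k j (N + 1) r c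

/-- Transport inequality below, in terms of `H`. -/
def cTBH : Prop := ∀ (k : Type) [Field k] [CharZero k] (j d M r : ℕ) (ν : ℕ → ℕ), 1 ≤ j →
  j + 1 ≤ d → 1 ≤ M → (∀ s, ν s < M) → (∀ s, s < j → ν s = 0) →
  (∀ s, j ≤ s → s < d → ∀ b, ν s ≤ b → b < M →
    H k j (b + 1) r s = H k j b r s + H k j (b + 1) r (s - 1)) →
  0 ≤ (H k j M r (d - 1) : ℝ) -
    ∑ s ∈ Finset.Ico j d, (H k j (ν s) r s : ℝ) * (M : ℝ) ^ (d - 1 - s) →
  ((H k j M (r + 1) d : ℝ) - H k j M r d + H k j M r (d - j)) *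
    ((H k j M r (d - 1) : ℝ) -
      ∑ s ∈ Finset.Ico j d, (H k j (ν s) r s : ℝ) * (M : ℝ) ^ (d - 1 - s)) ≤
  ((H k j M r (d - 1) : ℝ) - H k j M r d + H k j (M - 1) r d) * H k j M r (d - j)

/-- Transport inequality above, in terms of `H`. -/
def cTAH : Prop := ∀ (k : Type) [Field k] [CharZero k] (j d M ν0 r : ℕ) (ν : ℕ → ℕ), 1 ≤ j →
  j + 1 ≤ d → (∀ s, ν s ≤ ν0) → ν0 < M → (∀ s, s < j → ν s = 0) →
  (∀ s, j ≤ s → s < d → ∀ b, ν s ≤ b → b < M →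
    H k j (b + 1) r s = H k j b r s + H k j (b + 1) r (s - 1)) →
  ((H k j M r d : ℝ) - H k j (M - 1) r d) * ((H k j M r (d - j) : ℝ) -
      ∑ s ∈ Finset.Ico j (d - j + 1), (H k j (ν s) r s : ℝ) * (M : ℝ) ^ (d - j - s)) ≤
  (1 + ∑ s ∈ Finset.Ico j d, (H k j (ν s) r s : ℝ) * (M : ℝ) ^ (d - 1 - s) *
      ((d - 1).factorial : ℝ) / ((M : ℝ) - ν0) ^ (d - 1)) *
    (((H k j M r d : ℝ) - H k j M (r + 1) d) * H k j M r (d - 1))

/-- The conclusion of TRB in module form (part C). -/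
def cTRB : Prop := ∀ (j d M : ℕ) (ν : ℕ → ℕ) (St : List ℕ → Prop), 1 ≤ j → j + 1 ≤ d → 1 ≤ M →
    (∀ s, ν s < M) → Up St → Pre St → St [] →
    (∀ s, s + 1 < d → ∀ b, ν (s + 1) ≤ b → b < M →
      num (srt (b + 1) (s + 1)) St = num (srt b (s + 1)) St + num (srt (b + 1) s) St) →
    ∀ X : ℕ, X ≤ num (srt M d) (fun l => St l ∧ ¬ ∃ l', l = l' ++ List.replicate j (M - 1)) →
    0 ≤ (num (srt M (d - 1)) St : ℝ) -
      ∑ s ∈ Finset.Icc 1 (d - 1), (num (srt (ν s) s) St : ℝ) * (M : ℝ) ^ (d - 1 - s) →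
    ((X : ℝ) - num (srt M d) St + num (srt M (d - j)) St) *
      ((num (srt M (d - 1)) St : ℝ) -
        ∑ s ∈ Finset.Icc 1 (d - 1), (num (srt (ν s) s) St : ℝ) * (M : ℝ) ^ (d - 1 - s)) ≤
    ((num (srt M (d - 1)) St : ℝ) - num (srt M d) St + num (srt (M - 1) d) St) *
      num (srt M (d - j)) St

/-- The conclusion of TRA (part C). -/
def cTRA : Prop := ∀ (j d M ν0 : ℕ) (ν : ℕ → ℕ) (St : List ℕ → Prop), 1 ≤ j → j + 1 ≤ d →
    (∀ s, ν s ≤ ν0) → ν0 < M → Up St → Pre St → St [] →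
    (∀ s, s + 1 < d → ∀ b, ν (s + 1) ≤ b → b < M →
      num (srt (b + 1) (s + 1)) St = num (srt b (s + 1)) St + num (srt (b + 1) s) St) →
    ∀ X : ℕ, X ≤ num (srt M d) (fun l => St l ∧ ¬ ∃ l', l = l' ++ List.replicate j (M - 1)) →
    ((num (srt M d) St : ℝ) - num (srt (M - 1) d) St) *
      ((num (srt M (d - j)) St : ℝ) -
        ∑ s ∈ Finset.Icc 1 (d - j), (num (srt (ν s) s) St : ℝ) * (M : ℝ) ^ (d - j - s)) ≤
    (1 + ∑ s ∈ Finset.Icc 1 (d - 1), (num (srt (ν s) s) St : ℝ) * (M : ℝ) ^ (d - 1 - s) *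
        ((d - 1).factorial : ℝ) / ((M : ℝ) - ν0) ^ (d - 1)) *
      (((num (srt M d) St : ℝ) - X) * num (srt M (d - 1)) St)

/-- MODULE TRH (about 100 lines). Translation to `H`.
PROOF. Take `St` from `cALG k j r`; `num (srt N c) St = H k j N r c`. `cMOV`: `srt N c ⊆ srt (N+1) c`,
`num_mono_set`. `cTBH`: apply `cTRB` with `X := H k j M (r+1) d` (`cALG` last part with `N := M - 1`,
`c := d`). The hypothesis on counts for `s + 1 < d`: if `j ≤ s + 1` it is the hypothesis on `H`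
with `s + 1`; if `s + 1 < j` all three are binomial coefficients (`H k j N r c =
(N + c - 1).choose c` for `c < j`, by definition) and it is Pascal:
`(b + s + 1).choose (s+1) = (b + s).choose (s+1) + (b + s).choose s`. The sum over `Icc 1 (d-1)` is
the sum over `Ico j d`: for `1 ≤ s < j` we have `ν s = 0` and `H k j 0 r s ≤ (s - 1).choose s = 0`.
Same for `cTAH` (`Icc 1 (d-j)` is `Ico j (d-j+1)` plus zero terms; if `d - j < j` both are zero). -/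
def sTRH : Prop := cALG → cTRB → cTRA → cMOV ∧ cTBH ∧ cTAH

/-- Asymptotics of the expected values. -/
def cASY : Prop := ∀ (j c : ℕ) (Γ : ℝ), 1 ≤ j → 0 ≤ Γ → ∃ C : ℝ, 0 < C ∧ ∀ M r : ℕ, 1 ≤ M →
  (r : ℝ) ≤ Γ * (M : ℝ) ^ j →
  |(EE j M r c : ℝ) - (M : ℝ) ^ c * thr j c ((r : ℝ) / (M : ℝ) ^ j)| ≤ C * (M : ℝ) ^ (c - 1)

/-- MODULE ASY (about 150 lines).
PROOF. `EE j M r c - M^c thr = ∑_{i ≤ c/j} (-1)^i (r.choose i * (M + x - 1).choose x -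
r^i M^x / (i! x!))`, `x := c - i j` (as `M^c (r/M^j)^i = r^i M^(c - ij)`). Elementary bounds, with
constants depending on `i`, `x`: `|r.choose i - r^i / i!| ≤ C_i r^(i-1)` for `i ≥ 1` and `= 0` for
`i = 0` (`r.choose i = r (r-1) ... (r-i+1) / i!`; each factor differs from `r` by at most `i`;
induction on `i`; or `(r - i)^i ≤ i! choose ≤ r^i`), and
`|(M + x - 1).choose x - M^x / x!| ≤ C_x M^(x-1)` for `x ≥ 1`, `M ≥ 1` and `= 0` for `x = 0`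
(`M^x ≤ M (M+1) ... (M+x-1) ≤ (M + x)^x`). So each term is at most
`C (r^(i-1) M^x [i ≥ 1] + r^i M^(x-1) [x ≥ 1])` with `r ≤ Γ M^j`:
`r^(i-1) M^x ≤ Γ^(i-1) M^(j(i-1) + c - ij) = Γ^(i-1) M^(c-j) ≤ Γ^(i-1) M^(c-1)` and
`r^i M^(x-1) ≤ Γ^i M^(ij + c - ij - 1) = Γ^i M^(c-1)` (`M ≥ 1`, `j ≥ 1`). For `c = 0` the difference
is `0`. -/
def sASY : Prop := cASY

/-- Behaviour of `thr` near its least zero. -/
def cGAP : Prop := ∀ (j d : ℕ) (cs : ℝ), 2 ≤ j → IsZ j d cs → ∃ η c1 C2 : ℝ, 0 < η ∧ 0 < c1 ∧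
  0 < C2 ∧ (∀ c < d, ∀ x, 0 ≤ x → x ≤ cs + η → c1 ≤ thr j c x) ∧
  (∀ x, 0 ≤ x → x ≤ cs → c1 * (cs - x) ≤ thr j d x ∧ thr j d x ≤ C2 * (cs - x)) ∧
  (∀ x, cs ≤ x → x ≤ cs + η → thr j d x ≤ -(c1 * (x - cs))) ∧
  (∀ c ≤ d, ∀ x, 0 ≤ x → x ≤ cs + η → |thr j c x| ≤ C2) ∧
  (∀ (c : ℕ) (cs' : ℝ), j ≤ c → c < d → IsZ j c cs' → cs + η < cs')

/-- MODULE GAP (about 120 lines).
PROOF. For `c < d` and `0 ≤ x ≤ cs`: `0 < thr j c x`: for `x = cs` by `isZ_pos`, for `x < cs` by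
`thr_pos_of_pos` (Helper45/ShThr.lean: positivity of `thr j d` on `[0, x]` gives positivity of
`thr j c` there). So for each of the finitely many `c < d` the continuous function `thr j c` is
positive on the compact `[0, cs]`, hence at least some `c1 > 0` on `[0, cs + η]` for small `η`
(continuity at `cs` for the part beyond `cs`; compactness for the minimum; take minima over `c`).
`hasDerivAt_thr`: the derivative of `thr j d` is `- thr j (d - j)` (`j ≤ d` by `isZ_le`,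
`d - j < d`), at most `-c1` on `[0, cs + η]` and at least `-C2` with `C2` a bound for the absolute
values on the compact interval. As `thr j d cs = 0` the mean value theorem
(`image_sub_le_mul_sub_of_deriv_le` etc., or monotonicity of `thr j d x + c1 x` and
`thr j d x + C2 x`) gives the two-sided bounds on `[0, cs]` and the bound beyond `cs`.
If `IsZ j c cs'` with `c < d` then `thr j c cs' = 0` and `cs' > 0`, so `cs' ≤ cs + η` is impossible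
by the first property. -/
def sGAP : Prop := cGAP

/-- Bounds for the expected values. -/
def cEEB : Prop := ∀ (j d : ℕ) (cs : ℝ), 2 ≤ j → IsZ j d cs → ∃ η c1 C2 : ℝ, ∃ M1 : ℕ, 0 < η ∧
  0 < c1 ∧ 1 ≤ C2 ∧ 1 ≤ M1 ∧
  (∀ c < d, ∀ M r : ℕ, M1 ≤ M → (r : ℝ) ≤ (cs + η) * (M : ℝ) ^ j →
    c1 * (M : ℝ) ^ c ≤ EE j M r c ∧ (EE j M r c : ℝ) ≤ C2 * (M : ℝ) ^ c) ∧
  (∀ M r : ℕ, 1 ≤ M → (r : ℝ) ≤ (cs + η) * (M : ℝ) ^ j →
    |(EE j M r d : ℝ)| ≤ C2 * (M : ℝ) ^ d) ∧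
  (∀ M r : ℕ, 1 ≤ M → (r : ℝ) ≤ cs * (M : ℝ) ^ j →
    c1 * (cs - (r : ℝ) / (M : ℝ) ^ j) * (M : ℝ) ^ d - C2 * (M : ℝ) ^ (d - 1) ≤ EE j M r d ∧
    (EE j M r d : ℝ) ≤ C2 * (cs - (r : ℝ) / (M : ℝ) ^ j) * (M : ℝ) ^ d +
      C2 * (M : ℝ) ^ (d - 1)) ∧
  (∀ M r : ℕ, 1 ≤ M → cs * (M : ℝ) ^ j ≤ r → (r : ℝ) ≤ (cs + η) * (M : ℝ) ^ j →
    (EE j M r d : ℝ) ≤ -(c1 * ((r : ℝ) / (M : ℝ) ^ j - cs) * (M : ℝ) ^ d) +
      C2 * (M : ℝ) ^ (d - 1)) ∧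
  (∀ (c : ℕ) (cs' : ℝ), j ≤ c → c < d → IsZ j c cs' → cs + η < cs')

/-- MODULE EEB (about 100 lines).
PROOF. Combine GAP (`η`, `c1`, `C2`) and ASY with `Γ := cs + η` for all `c ≤ d`; let `C` be the
largest of the constants of ASY. First property: `EE ≥ c1 M^c - C M^(c-1) ≥ (c1/2) M^c` for
`M ≥ 2C/c1` when `c ≥ 1`; for `c = 0` `EE j M r 0 = 1 = thr j 0 x` (so `c1 ≤ 1`); use `c1/2`, and
`C2 + C` as upper constants (`M^(c-1) ≤ M^c`). The others directly with `c1/2` replaced by `c1`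
(smaller `c1` only weakens the lower bounds with nonnegative factor `cs - x`). -/
def sEEB : Prop := cASY → cGAP → cEEB

/-- Exactness in the lower degrees. -/
def cEXA : Prop := ∀ (k : Type) [Field k] [CharZero k] (j d : ℕ) (cs η : ℝ), 2 ≤ j → 0 < η →
  IsZ j d cs → (∀ (c : ℕ) (cs' : ℝ), j ≤ c → c < d → IsZ j c cs' → cs + η < cs') →
  (∀ c, j ≤ c → c < d → Below k j c) →
  ∃ M0 : ℕ, ∀ M ≥ M0, ∀ r : ℕ, (r : ℝ) ≤ (cs + η) * (M : ℝ) ^ j →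
    ∀ c < d, (H k j M r c : ℤ) = EE j M r c

/-- MODULE EXA (about 50 lines).
PROOF. For `c < j`: `cHUP` and `cREC` (both are `(M + c - 1).choose c`). For `j ≤ c < d`: let `cs'`
be the zero (`exists_isZ`), `C, M0` from `Below k j c`. As `cs + η < cs'` and
`wd (j-1) M / M^j = sqrt (M log M) / M → 0`, for large `M`
`(cs + η) M^j ≤ cs' M^j - C * wd (j-1) M`. Take the maximum over the finitely many `c`. -/
def sEXA : Prop := cHUP → cREC → cEXA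

/-- The choice of the irregular region. -/
def cNUS : Prop := ∀ (k : Type) [Field k] [CharZero k] (j d : ℕ) (cs η : ℝ), 2 ≤ j → 0 < η →
  IsZ j d cs → (∀ (c : ℕ) (cs' : ℝ), j ≤ c → c < d → IsZ j c cs' → cs + η < cs') →
  (∀ c, j ≤ c → c < d → Below k j c) → ∀ s, j ≤ s → s < d →
  ∃ θ C : ℝ, ∃ M0 : ℕ, 0 < θ ∧ θ < 1 ∧ 0 < C ∧ ∀ M ≥ M0, ∀ r : ℕ,
    (r : ℝ) ≤ (cs + η) * (M : ℝ) ^ j → ∃ ν : ℕ, ν < M ∧ (ν : ℝ) ≤ θ * M ∧
      (∀ b, ν ≤ b → b < M → H k j (b + 1) r s = H k j b r s + H k j (b + 1) r (s - 1)) ∧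
      (H k j ν r s : ℝ) ≤ C * wd (s - 1) M

/-- MODULE NUS (about 180 lines).
PROOF. Let `cs_s` be the zero for `s`, `Cs, Ms` from `Below k j s`; if `s - 1 ≥ j` also
`cs_(s-1)`, `C', M'` for `s - 1` (then `cs_s < cs_(s-1)`: `isZ_pos`, as in GAP). We may take
`Cs, C' ≥ 0`. Let
`A := max(...)` be a constant `≥ 2` such that for all natural `b ≥ A`: `b ≥ Ms, M'`, and
`cs_s b^j - Cs wd (j-1) b ≤ cs_(s-1) b^j - C' wd (j-1) b` (true for large `b`). Write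
`g b := cs_s b^j - Cs wd (j-1) b`. For `b ≥ A` with `r ≤ g b`: `H = EE` at `(b, r, s)` and at
`(b, r, s-1)` (`Below` for `s - 1 ≥ j`; `cHUP`, `cREC` if `s - 1 < j`).
Let `ν` be the least natural number `n` with `A ≤ n` and `r ≤ g b` for all `b` with `n ≤ b ≤ M`.
(i) such `n` exist and `ν ≤ θ M`, `ν < M`: choose `0 < θ < 1` and `ε > 0` with
`(cs_s - ε) θ'^j ≥ cs + η`, `θ' := θ/2 + ...`; precisely choose `θ' < θ < 1` with
`cs_s θ'^j > cs + η` (possible as `cs_s > cs + η`). For `b ≥ θ' M`: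
`g b ≥ (cs_s - ε) b^j ≥ (cs_s - ε) θ'^j M^j ≥ (cs + η) M^j ≥ r` for `ε` small and `M` large. So
`n := ⌈θ' M⌉` (at least `A` for large `M`) works and `ν ≤ ⌈θ' M⌉ ≤ θ' M + 1 ≤ θ M < M` for
large `M`.
(ii) For `ν ≤ b < M`: exactness at `(b+1, r, s)`, `(b, r, s)`, `(b+1, r, s-1)` and
`EE j (b+1) r s = EE j b r s + EE j (b+1) r (s-1)` (REC (1)) give the equation for `H`.
(iii) The bound. If `ν = A`: `H k j ν r s ≤ (A + s - 1).choose s`, a constant, at most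
`C * wd (s-1) M` (`wd (s-1) M ≥ 1/2` for `M ≥ 2`). If `ν > A`: minimality of `ν` gives
`r > g (ν - 1)`. Exactness at `(ν, r, s)`: `H k j ν r s = EE j ν r s ≤ C2 (cs_s - r/ν^j) ν^s +
C2 ν^(s-1)` by EEB for `d := s` (`r ≤ g ν ≤ cs_s ν^j`), and
`cs_s ν^j - r < cs_s ν^j - g (ν-1) ≤ cs_s (ν^j - (ν-1)^j) + Cs wd (j-1) (ν-1)
≤ cs_s j ν^(j-1) + Cs wd (j-1) ν`. So `H k j ν r s ≤ C2 (cs_s j ν^(s-1) + Cs wd (s-1) ν) +
C2 ν^(s-1) ≤ C wd (s-1) ν ≤ C wd (s-1) M` (`ν^(s-1) ≤ 2 wd (s-1) ν` for `ν ≥ 2`, `wd` monotone,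
`s - 1 ≥ 1`). -/
def sNUS : Prop := cHUP → cREC → cEEB → cNUS

/-- The transport inequality for the excess. -/
def cTTB : Prop := ∀ (k : Type) [Field k] [CharZero k] (j d : ℕ) (cs η : ℝ), 2 ≤ j → j < d →
  0 < η → IsZ j d cs → (∀ (c : ℕ) (cs' : ℝ), j ≤ c → c < d → IsZ j c cs' → cs + η < cs') →
  (∀ c, j ≤ c → c < d → Below k j c) →
  ∃ C1 : ℝ, ∃ M1 : ℕ, 0 < C1 ∧ ∀ M ≥ M1, ∀ r : ℕ, (r : ℝ) ≤ cs * (M : ℝ) ^ j →
    (exs k j d M (r + 1) - exs k j d M r) * ((EE j M r (d - 1) : ℝ) - C1 * wd (d - 2) M) ≤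
      (exs k j d (M - 1) r - exs k j d M r) * (EE j M r (d - j) : ℝ) ∧
    0 ≤ exs k j d M (r + 1) - exs k j d M r

/-- MODULE TTB (about 130 lines).
PROOF. Choose `M1` so large that NUS (for every `s` with `j ≤ s < d`; constants `C_s`) and EXA
apply. For `M ≥ M1`, `r ≤ cs M^j`, let `ν s` be the number of NUS for `j ≤ s < d` and `ν s := 0`
otherwise. EXA: `H k j M r (d-1) = EE`, `H k j M r (d-j) = EE`. The sum
`S := ∑ s ∈ Ico j d, H (ν s) r s * M^(d-1-s) ≤ ∑ C_s wd (s-1) M * M^(d-1-s) = C1' wd (d-2) M`.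
By EEB (applied to `d`, with its own `η'`; here only `r ≤ cs M^j` is used)
`EE j M r (d-1) ≥ c1 M^(d-1)`, and `wd (d-2) M / M^(d-1) → 0`, so
`0 ≤ EE j M r (d-1) - C1 wd (d-2) M` for large `M` (with `C1 := C1' + 1`). `cTBH` applies. By REC
(2) and (1): `H (r+1) d - H r d + H r (d-j) = exs (r+1) - exs r =: x`, and
`H r (d-1) - H r d + H (M-1) r d = exs (M-1) r - exs M r` (REC (1) with `N + 1 = M`, `c + 1 = d`).
By `cHUP` (last) `x ≥ 0`. So `x * (EE - C1 wd) ≤ x * (EE - S) ≤ (exs (M-1) - exs M) * EE (d-j)`. -/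
def sTTB : Prop := cHUP → cREC → cEEB → cEXA → cNUS → cTBH → cTTB

/-- The transport inequality for the Hilbert function. -/
def cTTA : Prop := ∀ (k : Type) [Field k] [CharZero k] (j d : ℕ) (cs η : ℝ), 2 ≤ j → j < d →
  0 < η → IsZ j d cs → (∀ (c : ℕ) (cs' : ℝ), j ≤ c → c < d → IsZ j c cs' → cs + η < cs') →
  (∀ c, j ≤ c → c < d → Below k j c) →
  ∃ C1 : ℝ, ∃ M1 : ℕ, 0 < C1 ∧ ∀ M ≥ M1, ∀ r : ℕ, (r : ℝ) ≤ (cs + η) * (M : ℝ) ^ j →
    ((H k j M r d : ℝ) - H k j (M - 1) r d) *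
      ((EE j M r (d - j) : ℝ) - C1 * wd (d - j - 1) M) ≤
    (1 + C1 * (Real.sqrt (M * Real.log M) / M)) *
      (((H k j M r d : ℝ) - H k j M (r + 1) d) * EE j M r (d - 1))

/-- MODULE TTA (about 130 lines).
PROOF. As in TTB choose `ν s` (`ν s := 0` for `s` outside `[j, d)`), `θ` the largest of the `θ_s`
(or `1/2` if none), `ν0 :=` the largest `ν s`, `ν0 ≤ θ M`, `ν0 < M`. `cTAH` applies. EXA:
`H M r (d-1) = EE`, `H M r (d-j) = EE`. `∑ s ∈ Ico j (d-j+1), H (ν s) r s * M^(d-j-s) ≤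
C wd (d-j-1) M` (`wd (s-1) M * M^(d-j-s) = wd (d-j-1) M`), the first factor
`H M r d - H (M-1) r d` is nonnegative (`cMOV`), so the left side of the claim is at most the left
side of `cTAH`. On the right `M - ν0 ≥ (1 - θ) M`, so `∑ s ∈ Ico j d, ... ≤
C (d-1)! / (1-θ)^(d-1) * wd (d-2) M / M^(d-1) = C' sqrt (M log M) / M`, and the last factor is
nonnegative (`cHUP` fourth; `EE = H ≥ 0`). -/
def sTTA : Prop := cHUP → cREC → cEXA → cNUS → cMOV → cTAH → cTTA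

/-- One step of the comparison below. -/
def cSB1 : Prop := ∀ (j d : ℕ) (c1 C1 C2 : ℝ), 2 ≤ j → j < d → 0 < c1 → 0 < C1 → 0 < C2 →
  ∃ θ t0 : ℝ, ∃ M1 : ℕ, 0 < θ ∧ 0 < t0 ∧ ∀ (M K : ℕ) (L a b b' W A g x y0 y1 : ℝ), M1 ≤ M →
    M ≤ K → 0 ≤ L → L ≤ t0 * Real.sqrt M → c1 * (M : ℝ) ^ (d - 1) ≤ b →
    b ≤ C2 * (M : ℝ) ^ (d - 1) → 0 < a → a ≤ C2 * (M : ℝ) ^ (d - j) → b' ≤ b → 0 ≤ W →
    W ≤ (M : ℝ) ^ (d - 2) * (Real.sqrt M * L) → 0 < A →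
    (x - y1) * (b - C1 * W) ≤ (y0 - y1) * a →
    y1 ≤ A * Real.exp (-(L / ((K : ℝ) ^ (d - 1) * Real.sqrt K) * g)) →
    y0 ≤ A * Real.exp (-(L / ((K : ℝ) ^ (d - 1) * Real.sqrt K) * (g - b'))) →
    x ≤ A * Real.exp (-(L / ((K : ℝ) ^ (d - 1) * Real.sqrt K) *
      (g - (a + θ * L * ((M : ℝ) ^ (d - j - 1) * Real.sqrt M)))))

/-- MODULE SB1 (about 130 lines). Real arithmetic.
PROOF. Put `θ := 2 C2 (C1/c1 + C2)`, `t0 := min (c1/(2 C1)) (1/C2)`, `M1 ≥ 1` with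
`M1 ≥ 2 C2/c1`; `s := sqrt M`, `t := L/s ≤ t0`, `μ := L / (K^(d-1) sqrt K)`, `F := A exp(-μ g)`,
`Lo := b - C1 W`.
(1) `W ≤ M^(d-2) s L = t M^(d-1)` (as `s * s = M`), so `Lo ≥ b (1 - (C1/c1) t) ≥ b/2 > 0` (use
`M^(d-1) ≤ b / c1`).
(2) `w := a / Lo ∈ [0, 1]`: `a ≤ C2 M^(d-j) ≤ (c1/2) M^(d-1) ≤ b/2 ≤ Lo` since
`M^(d-1) ≥ M^(d-j) M` (`j ≥ 2`) and `M ≥ 2 C2 / c1`.
(3) the hypothesis says `x ≤ y1 + w (y0 - y1) = (1 - w) y1 + w y0 ≤ (1 - w) F + w F exp(μ b')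
= F (1 + w (exp (μ b') - 1))`.
(4) With `a' := a + θ L M^(d-j-1) s`, the claim is `x ≤ F exp(μ a')`, and
`exp (μ a') ≥ 1 + μ a'`, `μ a' ≥ 0`. If `b' ≤ 0` then `exp (μ b') - 1 ≤ 0`: done. If `b' > 0`:
`exp (μ b') ≤ exp (μ b)`, and `0 ≤ μ b ≤ L C2 M^(d-1) / (K^(d-1) sqrt K) ≤ C2 L / sqrt K ≤ C2 t ≤ 1`
(`M ≤ K`), so `exp (μ b) - 1 ≤ μ b + (μ b)^2 ≤ μ b (1 + C2 t)` (`Real.abs_exp_sub_one_sub_id_le`).
So it suffices `w b (1 + C2 t) ≤ a'`, i.e. `a b (1 + C2 t) ≤ a' Lo`. Now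
`a' = a + θ t M^(d-j) ≥ a (1 + (θ/C2) t)` (as `L M^(d-j-1) s = t M^(d-j)`, `M^(d-j) ≥ a/C2`) and
`Lo ≥ b (1 - (C1/c1) t)`, and `(1 + (θ/C2) t)(1 - (C1/c1) t) ≥ 1 + (θ/C2) t (1 - (C1/c1) t) -
(C1/c1) t ≥ 1 + (θ/(2 C2)) t - (C1/c1) t = 1 + C2 t`. -/
def sSB1 : Prop := cSB1

/-- The comparison principle below the threshold. -/
def cSUB : Prop := ∀ (j d : ℕ) (cs c1 C1 C2 : ℝ) (M1 : ℕ) (e a b G : ℕ → ℕ → ℝ), 2 ≤ j → j < d →
  0 < cs → 0 < c1 → 0 < C1 → 1 ≤ C2 →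
  (∀ M r : ℕ, M1 ≤ M → (r : ℝ) ≤ cs * (M : ℝ) ^ j → G M r - G M (r + 1) = a M r) →
  (∀ M r : ℕ, M1 ≤ M → (r : ℝ) ≤ cs * (M : ℝ) ^ j → G M r - G (M - 1) r = b M r) →
  (∀ M r : ℕ, M1 ≤ M → (r : ℝ) ≤ cs * (M : ℝ) ^ j →
    c1 * (M : ℝ) ^ (d - 1) ≤ b M r ∧ b M r ≤ C2 * (M : ℝ) ^ (d - 1) ∧
    0 < a M r ∧ a M r ≤ C2 * (M : ℝ) ^ (d - j)) →
  (∀ M r : ℕ, 1 ≤ M → (r : ℝ) ≤ cs * (M : ℝ) ^ j → G M r ≤ C2 * (M : ℝ) ^ d) →
  (∀ M r : ℕ, M1 ≤ M → (r : ℝ) ≤ cs * (M : ℝ) ^ j → cs * ((M : ℝ) - 1) ^ j < r →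
    G M r ≤ C2 * (M : ℝ) ^ (d - 1)) →
  (∀ M : ℕ, e M 0 ≤ 0) →
  (∀ M r : ℕ, 1 ≤ M → (r : ℝ) ≤ cs * (M : ℝ) ^ j → e M r ≤ C2 * (M : ℝ) ^ d) →
  (∀ M r : ℕ, M1 ≤ M → (r : ℝ) + 1 ≤ cs * (M : ℝ) ^ j →
    (e M (r + 1) - e M r) * (b M r - C1 * wd (d - 2) M) ≤ (e (M - 1) r - e M r) * a M r) →
  ∃ C : ℝ, ∃ M0 : ℕ, ∀ M ≥ M0, ∀ r : ℕ, (r : ℝ) ≤ cs * (M : ℝ) ^ j →
    C * wd (d - 1) M ≤ G M r → e M r < 1

/-- MODULE SUB (about 230 lines). The exponential supersolution.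
PROOF. Take `θ, t0, M1'` from `cSB1` (constants `c1, C1, C2`). Let `m1 := max M1 M1' 3 ...` be a
fixed number such that also `θ cs 2^(-j) sqrt M ≥ C2` for `M ≥ m1`. `C := θ cs + d + 1`. Let
`K ≥ M0` (`M0` large, see below), `L := sqrt (log K) ≥ 1`, `μ := L / (K^(d-1) sqrt K)`,
`A := 3 C2 K^d`, `h M := M^(d-j-1) sqrt M`, `G~ M r := G M r - θ L r h M`,
`F M r := A exp (-μ G~ M r)`, `m* := m1 + L^2/t0^2` (so `M ≥ m*` implies `L ≤ t0 sqrt M`).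
CLAIM: for all `r` and all `1 ≤ M ≤ K` with `r ≤ cs M^j`: `e M r ≤ F M r`. Induction on `r`.
`r = 0`: `e M 0 ≤ 0 < F`. Step to `r + 1`, with `r + 1 ≤ cs M^j`, `M ≤ K`:
Case 1: `G~ M (r+1) ≤ 0`. Then `F ≥ A ≥ C2 K^d ≥ C2 M^d ≥ e`.
Case 2: `M < m*`. `G~ ≤ G ≤ C2 M^d ≤ C2 m*^d`, and `μ C2 m*^d = L C2 (m1 + (log K)/t0^2)^d /
(K^(d-1) sqrt K) ≤ 1` for `K ≥ M0` (powers of `log K` are `o(K)`; `d ≥ 3`). So
`F ≥ A exp (-1) ≥ A/3 = C2 K^d ≥ e M (r+1)`.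
Case 3: `M ≥ m*` and `G~ M (r+1) > 0`. First `r ≤ cs (M-1)^j`: otherwise `G M r ≤ C2 M^(d-1)` and
`G~ M (r+1) = G M r - a M r - θ L (r+1) h M ≤ C2 M^(d-1) - θ L r h M`, where
`r > cs (M-1)^j ≥ cs 2^(-j) M^j` so `r h M ≥ cs 2^(-j) M^(d-1) sqrt M`
(`M^j M^(d-j-1) = M^(d-1)`), and `θ L cs 2^(-j) sqrt M ≥ C2`; so `G~ M (r+1) ≤ 0`, contradiction.
So the induction hypothesis applies to `(M, r)` and `(M-1, r)` (`M - 1 ≥ 1`):
`e M r ≤ F M r`, `e (M-1) r ≤ F (M-1) r`. Apply `cSB1` with `g := G~ M r`, `a := a M r`,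
`b := b M r`, `b' := G~ M r - G~ (M-1) r = b M r - θ L r (h M - h (M-1)) ≤ b M r`
(`h` is nondecreasing), `W := wd (d-2) M = M^(d-2) sqrt (M log M) ≤ M^(d-2) sqrt M * L`
(`log M ≤ log K = L^2`), `x := e M (r+1)`, `y1 := e M r`, `y0 := e (M-1) r`; and
`G~ M (r+1) = G~ M r - (a M r + θ L h M)`. So `e M (r+1) ≤ F M (r+1)`.
CONCLUSION: let `M = K`, `r ≤ cs K^j`, `C wd (d-1) K ≤ G K r`. `wd (d-1) K = K^(d-1) sqrt K * L`
and `r h K ≤ cs K^j K^(d-j-1) sqrt K = cs K^(d-1) sqrt K`, so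
`G~ K r ≥ (C - θ cs) L K^(d-1) sqrt K`, `μ G~ K r ≥ (C - θ cs) L^2 = (d + 1) log K` and
`e K r ≤ F K r ≤ 3 C2 K^d K^(-(d+1)) = 3 C2 / K < 1` for `K > 3 C2`. -/
def sSUB : Prop := cSB1 → cSUB

/-- One step of the comparison above. -/
def cSA1 : Prop := ∀ (j d : ℕ) (c1 C1 C2 : ℝ), 2 ≤ j → j < d → 0 < c1 → 0 < C1 → 0 < C2 →
  ∃ θ t0 : ℝ, ∃ M1 : ℕ, 0 < θ ∧ 0 < t0 ∧ ∀ (M K : ℕ) (L a b b' W V A g x y0 y1 : ℝ), M1 ≤ M →
    M ≤ K → 0 ≤ L → L ≤ t0 * Real.sqrt M → c1 * (M : ℝ) ^ (d - 1) ≤ b →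
    b ≤ C2 * (M : ℝ) ^ (d - 1) → c1 * (M : ℝ) ^ (d - j) ≤ a → a ≤ C2 * (M : ℝ) ^ (d - j) →
    b ≤ b' → 0 ≤ W → W ≤ (M : ℝ) ^ (d - j - 1) * (Real.sqrt M * L) →
    0 ≤ V → V ≤ L / Real.sqrt M → 0 < A →
    (y1 - y0) * (a - C1 * W) ≤ (1 + C1 * V) * ((y1 - x) * b) →
    y1 ≤ A * Real.exp (L / ((K : ℝ) ^ (d - 1) * Real.sqrt K) * g) →
    y0 ≤ A * Real.exp (L / ((K : ℝ) ^ (d - 1) * Real.sqrt K) * (g - b')) →
    x ≤ A * Real.exp (L / ((K : ℝ) ^ (d - 1) * Real.sqrt K) *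
      (g - (a - θ * L * ((M : ℝ) ^ (d - j - 1) * Real.sqrt M))))

/-- MODULE SA1 (about 130 lines). Real arithmetic.
PROOF. Put `θ := C2 (C1/c1 + C1 + C2)`, `t0 := min (c1/(2 C1)) (min (1/(2 C1)) (1/(2 C2)))`,
`M1 ≥ max 1 (C2/c1)`; `s := sqrt M`, `t := L/s ≤ t0`, `μ := L/(K^(d-1) sqrt K)`,
`F := A exp (μ g)`.
(1) `w := (a - C1 W) / ((1 + C1 V) b)`. `W ≤ t M^(d-j) ≤ t a / c1`, so
`a - C1 W ≥ a (1 - (C1/c1) t) ≥ a/2 > 0` and (as `1/(1 + C1 V) ≥ 1 - C1 V ≥ 1 - C1 t`)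
`w b ≥ a (1 - (C1/c1) t) (1 - C1 t)`; and `0 ≤ w ≤ a/b ≤ C2 M^(d-j) / (c1 M^(d-1)) ≤ 1`
(`M^(d-1) ≥ M M^(d-j)`, `M ≥ C2/c1`).
(2) The hypothesis says `x ≤ y1 - w (y1 - y0) = (1 - w) y1 + w y0 ≤ F (1 - w (1 - exp (-μ b')))
≤ F (1 - w (1 - exp (-μ b)))`.
(3) `0 ≤ μ b ≤ C2 t ≤ 1` as in SB1, so `1 - exp (-μ b) ≥ μ b (1 - μ b) ≥ μ b (1 - C2 t)`.
(4) claim: `x ≤ F exp (-μ a'')` with `a'' := a - θ L M^(d-j-1) s = a - θ t M^(d-j)
≤ a (1 - (θ/C2) t)`. `exp (-μ a'') ≥ 1 - μ a''`. So it suffices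
`a'' ≤ w b (1 - C2 t)`: `w b (1 - C2 t) ≥ a (1 - (C1/c1) t)(1 - C1 t)(1 - C2 t) ≥
a (1 - (C1/c1 + C1 + C2) t) = a (1 - (θ/C2) t) ≥ a''` (all three factors are in `[0, 1]`). -/
def sSA1 : Prop := cSA1

/-- The comparison principle above the threshold. -/
def cSUA : Prop := ∀ (j d : ℕ) (cs c1 C1 C2 : ℝ) (M1 : ℕ) (h a b G : ℕ → ℕ → ℝ), 2 ≤ j → j < d →
  0 < cs → 0 < c1 → 0 < C1 → 1 ≤ C2 →
  (∀ M r : ℕ, M1 ≤ M → (r : ℝ) ≤ cs * (M : ℝ) ^ j → G M r - G M (r + 1) = a M r) →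
  (∀ M r : ℕ, M1 ≤ M → (r : ℝ) ≤ cs * (M : ℝ) ^ j → G M r - G (M - 1) r = b M r) →
  (∀ M r : ℕ, M1 ≤ M → (r : ℝ) ≤ cs * (M : ℝ) ^ j →
    c1 * (M : ℝ) ^ (d - 1) ≤ b M r ∧ b M r ≤ C2 * (M : ℝ) ^ (d - 1) ∧
    c1 * (M : ℝ) ^ (d - j) ≤ a M r ∧ a M r ≤ C2 * (M : ℝ) ^ (d - j)) →
  (∀ M r : ℕ, 1 ≤ M → (r : ℝ) ≤ cs * (M : ℝ) ^ j → -(C2 * (M : ℝ) ^ d) ≤ G M r) →
  (∀ M : ℕ, 0 ≤ G M 0) →
  (∀ M r : ℕ, 1 ≤ M → h M r ≤ C2 * (M : ℝ) ^ d) →
  (∀ M r : ℕ, M1 ≤ M → cs * (M : ℝ) ^ j < r → h M r = 0) →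
  (∀ M r : ℕ, M1 ≤ M → (r : ℝ) ≤ cs * (M : ℝ) ^ j →
    (h M r - h (M - 1) r) * (a M r - C1 * wd (d - j - 1) M) ≤
      (1 + C1 * (Real.sqrt (M * Real.log M) / M)) * ((h M r - h M (r + 1)) * b M r)) →
  ∃ C : ℝ, ∃ M0 : ℕ, ∀ M ≥ M0, ∀ r : ℕ, (r : ℝ) ≤ cs * (M : ℝ) ^ j →
    G M r ≤ -(C * wd (d - 1) M) → h M r < 1

/-- MODULE SUA (about 200 lines). (Here `cs` plays the role of a number slightly above the
threshold.)
PROOF. Take `θ, t0, M1'` from `cSA1`, `m1 := max (M1 + 1) M1' ...`, `C := θ cs + d + 1`. Let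
`K ≥ M0` large, `L := sqrt (log K) ≥ 1`, `μ := L / (K^(d-1) sqrt K)`, `A := 3 C2 K^d`,
`p M := M^(d-j-1) sqrt M` (nondecreasing), `G+ M r := G M r + θ L r p M`,
`F M r := A exp (μ G+ M r)`, `m* := m1 + L^2/t0^2`.
CLAIM: for all `r`, `1 ≤ M ≤ K` with `r ≤ cs M^j`: `h M r ≤ F M r`. Induction on `r`.
`r = 0`: `G+ M 0 = G M 0 ≥ 0`, `F ≥ A ≥ C2 M^d ≥ h`. Step to `r + 1 ≤ cs M^j`:
If `M < m*`: `G+ ≥ G ≥ -C2 m*^d` and `μ C2 m*^d ≤ 1` for large `K`, so `F ≥ A/3 = C2 K^d ≥ h`.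
If `M ≥ m*`: `h M r ≤ F M r` by induction; `h (M-1) r ≤ F (M-1) r`: by induction if
`r ≤ cs (M-1)^j`, otherwise `h (M-1) r = 0` (`M - 1 ≥ M1`). Apply `cSA1` with `g := G+ M r`,
`a := a M r`, `b := b M r`, `b' := G+ M r - G+ (M-1) r = b M r + θ L r (p M - p (M-1)) ≥ b M r`,
`W := wd (d-j-1) M ≤ M^(d-j-1) sqrt M L`, `V := sqrt (M log M) / M ≤ L / sqrt M`,
`x := h M (r+1)`, `y1 := h M r`, `y0 := h (M-1) r`; `G+ M (r+1) = G+ M r - (a M r - θ L p M)`.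
CONCLUSION: `M = K`: `G+ K r ≤ -(C - θ cs) L K^(d-1) sqrt K` (`r p K ≤ cs K^(d-1) sqrt K`), so
`μ G+ ≤ -(d+1) log K` and `h ≤ 3 C2 K^d K^(-(d+1)) = 3 C2/K < 1` for `K > 3 C2`. -/
def sSUA : Prop := cSA1 → cSUA

/-- MODULE STP (about 150 lines). The induction step.
PROOF. Let `cs` with `IsZ j d cs`, `η, c1, C2, M1` from EEB. Apply `cSUB` to `cs`,
`e := exs k j d`, `a M r := EE j M r (d-j)`, `b M r := EE j M r (d-1)`, `G M r := EE j M r d`,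
`C1` from TTB, `C2' := 2 C2 + 2^d ...` large enough and `M1' ` large enough. Check the hypotheses:
differences of `G`: REC (2) (`j ≤ d`), REC (1). Bounds for `a`, `b`: EEB first property. Upper bound
for `G`: EEB second. Near the edge (`cs (M-1)^j < r ≤ cs M^j`): EEB third, upper bound, with
`cs - r/M^j ≤ cs (M^j - (M-1)^j)/M^j ≤ cs j / M`. `e M 0 = 0`: HUP second, REC (4).
`e M r ≤ H + |EE| ≤ (M + d - 1).choose d + C2 M^d ≤ C2' M^d` for `M ≥ 1` (`(M+d-1).choose d ≤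
(M + d)^d ≤ (1+d)^d M^d`). The transport inequality: TTB (`r ≤ r + 1 ≤ cs M^j`).
So there are `C`, `M0` with `exs k j d M r < 1` if `M ≥ M0`, `r ≤ cs M^j`, `C wd (d-1) M ≤ EE j M r d`.
Lower bound: `0 ≤ exs k j d M r` for `M ≥ M1'`, `r ≤ cs M^j`: induction on `r` from `exs M 0 = 0`
with the last part of TTB. So `exs = 0`: it is an integer (`H - EE`), hence `H = EE`.
Finally if `r ≤ cs M^j - C'' wd (j-1) M` then (third property of EEB, `wd (j-1) M / M^j * M^d =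
wd (d-1) M`) `EE j M r d ≥ c1 C'' wd (d-1) M - C2 M^(d-1) ≥ C wd (d-1) M` if
`c1 C'' ≥ max C 0 + 2 C2` (`M^(d-1) ≤ 2 wd (d-1) M` for `M ≥ 2`), and `r ≤ cs M^j`
(`C'' ≥ 0`). So `Below k j d` with the constant `C''`. -/
def sSTP : Prop := cHUP → cREC → cEEB → cTTB → cSUB →
  ∀ (k : Type) [Field k] [CharZero k] (j d : ℕ), 2 ≤ j → j < d →
    (∀ c, j ≤ c → c < d → Below k j c) → Below k j d

/-- The conclusion of STP. -/
def cSTP : Prop := ∀ (k : Type) [Field k] [CharZero k] (j d : ℕ), 2 ≤ j → j < d →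
    (∀ c, j ≤ c → c < d → Below k j c) → Below k j d

/-- All degrees. -/
def cBEL : Prop := ∀ (k : Type) [Field k] [CharZero k] (j c : ℕ), 2 ≤ j → j ≤ c → Below k j c

/-- MODULE BEL (about 50 lines).
PROOF. Strong induction on `c`; the step is `cSTP`. Base `c = j`: `IsZ j j cs` gives `cs = 1/j!`
(`thr_self`). If `r ≤ cs M^j - C wd (j-1) M` with `C = 0` then `r ≤ M^j/j! ≤ (M + j - 1).choose j`
(`M^j ≤ M (M+1) ... (M+j-1) = j! (M + j - 1).choose j`, `Nat.ascFactorial`...), so `gen k (Fin M) j 0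
r = r` (BAS) and `H k j M r j = (M+j-1).choose j - r = EE j M r j` (`j / j = 1`: two terms). -/
def sBEL : Prop := cSTP → cBAS → cREC → cBEL

/-- Above the threshold. -/
def cABV : Prop := ∀ (k : Type) [Field k] [CharZero k] (j d : ℕ) (cs : ℝ), 2 ≤ j → j ≤ d →
  IsZ j d cs → ∃ C : ℝ, ∃ M0 : ℕ, ∀ M ≥ M0, ∀ r : ℕ,
    cs * (M : ℝ) ^ j + C * wd (j - 1) M ≤ r → H k j M r d = 0

/-- MODULE ABV (about 170 lines).
PROOF. `d = j`: `cs = 1/j!`, `EE j M r j = (M + j - 1).choose j - r`; if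
`r ≥ cs M^j + C wd (j-1) M ≥ (M + j - 1).choose j =: D` (true for large `C`:
`D ≤ M^j/j! + C' M^(j-1)`, ASY) then `gen k (Fin M) j 0 r ≥ gen k (Fin M) j 0 D = D` (BAS,
`gen_mono`) so `H = 0`. Let `j < d`. EEB: `η, c1, C2, M1`. Apply `cSUA` with `cs + η` in the role of
`cs`, `h M r := H k j M r d`, `a := EE (d-j)`, `b := EE (d-1)`, `G := EE d`, `C1` from TTA (for `cs`,
`η`, `cBEL` gives the hypothesis `Below`). Hypotheses: as in STP; `G M 0 = (M+d-1).choose d ≥ 0`;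
`h ≤ (M+d-1).choose d ≤ C2' M^d`; `h M r = 0` for `r > (cs + η) M^j`, `M` large: by `isZ_neg` there
is `x` with `cs < x < cs + η/2`, `thr j d x < 0`, and
`Pool.Agent.Helper45.Gr.gen_full_of_above` (Helper45/GrFinal.lean, with `E + j = d`, `E := d - j`)
says that for large `n` all `t ≥ x n^j` have `gen k (Fin (n+1)) j E t` equal to the full dimension;
`n = M - 1`; so `H k j M r d = 0` (`finrank_homog`). The inequality: TTA.
So `h M r < 1`, i.e. `H k j M r d = 0`, if `M ≥ M0`, `r ≤ (cs + η) M^j`,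
`EE j M r d ≤ -(C wd (d-1) M)`. If `cs M^j + C'' wd (j-1) M ≤ r ≤ (cs + η) M^j` then by the fourth
property of EEB `EE ≤ -c1 C'' wd (d-1) M + C2 M^(d-1) ≤ -C wd (d-1) M` for large `C''`. For
`r > (cs + η) M^j` we saw `H = 0`. -/
def sABV : Prop := cHUP → cREC → cASY → cEEB → cBAS → cBEL → cTTA → cSUA → cABV

/-- Inside the window. -/
def cMID : Prop := ∀ (k : Type) [Field k] [CharZero k] (j d : ℕ) (cs C : ℝ), 2 ≤ j → j ≤ d →
  IsZ j d cs → ∃ C' : ℝ, ∃ M0 : ℕ, ∀ M ≥ M0, ∀ r : ℕ,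
    cs * (M : ℝ) ^ j - C * wd (j - 1) M ≤ r → (H k j M r d : ℝ) ≤ C' * wd (d - 1) M

/-- MODULE MID (about 60 lines).
PROOF. Let `C1, M1` be from `cBEL` (`Below k j d`), `C3 := max C C1 + 1 ≥ 0...`, and
`r0 := ⌊cs M^j - C3 wd (j-1) M⌋₊` (for large `M` the number inside is positive). If
`r ≥ cs M^j - C wd (j-1) M` then `r ≥ r0`, so `H k j M r d ≤ H k j M r0 d` (HUP fourth, repeated)
`= EE j M r0 d ≤ C2 (cs - r0/M^j) M^d + C2 M^(d-1)` (EEB third), and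
`cs M^j - r0 ≤ C3 wd (j-1) M + 1`. So `≤ C' wd (d-1) M`. -/
def sMID : Prop := cHUP → cEEB → cBEL → cMID

/-- From the generic Hilbert function to fat points. -/
def cHIL : Prop := ∀ (n m j r : ℕ), 1 ≤ m → 1 ≤ j →
  (∀ P : Fin r → Fin (n + 1) → ℂ, (∀ i, P i ≠ 0) →
    (H ℂ j (n + 1) r (m - 1 + j) : ℤ) ≤
      (Module.finrank ℂ (homogeneousSubmodule (Fin (n + 1)) ℂ (m - 1 + j) ⊓
        (fatId P m).restrictScalars ℂ : Submodule ℂ (MvPolynomial (Fin (n + 1)) ℂ)) : ℤ)) ∧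
  ∃ G : MvPolynomial (Fin r × Fin (n + 1)) ℂ, G ≠ 0 ∧
    ∀ P : Fin r → Fin (n + 1) → ℂ, eval (fun x => P x.1 x.2) G ≠ 0 → (∀ i, P i ≠ 0) ∧
      (Module.finrank ℂ (homogeneousSubmodule (Fin (n + 1)) ℂ (m - 1 + j) ⊓
        (fatId P m).restrictScalars ℂ : Submodule ℂ (MvPolynomial (Fin (n + 1)) ℂ)) : ℤ) =
        H ℂ j (n + 1) r (m - 1 + j)

/-- MODULE HIL (about 70 lines).
PROOF. `Pool.Agent.Helper45.codim_eq` (ShFinal.lean): for nonzero points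
`finrank (R_d ⊓ fatId) + finrank (degPart (powSeq ..) r (m-1)) = finrank R_d`, `d = m - 1 + j`, and
`degPart (powSeq P j) r E = setPart (pw ..) univ E` (`degPart_eq_setPart`, GrFinal.lean), whose
dimension is at most `gen ℂ (Fin (n+1)) j (m-1) r` (`le_csSup (Gr.gen_bdd ..)`), with equality for
general points (`Gr.exists_generic_tuple` with `S = univ`, made nonzero by `exists_nonzero` of
ShFinal.lean). `finrank R_d = (n + 1 + d - 1).choose d` (`finrank_homog`),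
`H ℂ j (n+1) r d = (n + 1 + d - 1).choose d - gen ℂ (Fin (n+1)) j (d - j) r`, `d - j = m - 1`,
`gen ≤ finrank R_d` (`gen_le_homog`). -/
def sHIL : Prop := cHIL

end Pool.Agent.Helper65.HF
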