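import Mathlib
import Pool.Agent.Helper65.HF.StN
import Pool.Agent.Helper45.ShFinal

/-!
Project HF: the final statement from the conclusions of the modules.
-/

namespace Pool.Agent.Helper65.HF

open MvPolynomial Pool.Agent.Helper45

theorem wd_nonneg (p M : ℕ) : 0 ≤ wd p M := by
  unfold wd
  positivity

theorem log_succ_le {n : ℕ} (hn : 2 ≤ n) : Real.log ((n : ℝ) + 1) ≤ 2 * Real.log n := by
  have h1 : (2 : ℝ) ≤ n := by exact_mod_cast hn
  have h2 : (n : ℝ) + 1 ≤ (n : ℝ) ^ 2 := by nlinarith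
  calc Real.log ((n : ℝ) + 1) ≤ Real.log ((n : ℝ) ^ 2) := Real.log_le_log (by positivity) h2
    _ = 2 * Real.log n := by rw [Real.log_pow]; push_cast; ring

theorem wd_succ_le (p : ℕ) {n : ℕ} (hn : 2 ≤ n) : wd p (n + 1) ≤ 2 ^ (p + 1) * wd p n := by
  unfold wd
  have h1 : (2 : ℝ) ≤ n := by exact_mod_cast hn
  have hlog : 0 ≤ Real.log n := Real.log_nonneg (by linarith)
  have h2 : ((n + 1 : ℕ) : ℝ) ^ p ≤ 2 ^ p * (n : ℝ) ^ p := by
    rw [← mul_pow]
    refine pow_le_pow_left₀ (by positivity) ?_ p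
    push_cast
    linarith
  have h3 : Real.sqrt (((n + 1 : ℕ) : ℝ) * Real.log ((n + 1 : ℕ) : ℝ)) ≤
      2 * Real.sqrt (n * Real.log n) := by
    have h4 : (2 : ℝ) = Real.sqrt (2 ^ 2) := by
      rw [Real.sqrt_sq (by norm_num)]
    rw [h4, ← Real.sqrt_mul (by positivity)]
    refine Real.sqrt_le_sqrt ?_
    push_cast
    have h5 := log_succ_le hn
    have h6 : 0 ≤ Real.log ((n : ℝ) + 1) := Real.log_nonneg (by linarith)
    calc ((n : ℝ) + 1) * Real.log ((n : ℝ) + 1) ≤ (2 * n) * (2 * Real.log n) :=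
          mul_le_mul (by linarith) h5 h6 (by positivity)
      _ = 2 ^ 2 * (n * Real.log n) := by ring
  calc ((n + 1 : ℕ) : ℝ) ^ p * Real.sqrt (((n + 1 : ℕ) : ℝ) * Real.log ((n + 1 : ℕ) : ℝ)) ≤
      (2 ^ p * (n : ℝ) ^ p) * (2 * Real.sqrt (n * Real.log n)) :=
        mul_le_mul h2 h3 (Real.sqrt_nonneg _) (by positivity)
    _ = _ := by ring

theorem pow_le_wd (p : ℕ) {n : ℕ} (hn : 2 ≤ n) : (n : ℝ) ^ p ≤ 2 * wd p n := by
  unfold wd
  have h1 : (2 : ℝ) ≤ n := by exact_mod_cast hn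
  have hlog : (1 : ℝ) / 4 ≤ Real.log n := by
    have h2 : Real.log 2 ≤ Real.log n := Real.log_le_log (by norm_num) h1
    have h3 := Real.log_two_gt_d9
    linarith
  have h2 : (1 : ℝ) / 2 ≤ Real.sqrt (n * Real.log n) := by
    refine Real.le_sqrt_of_sq_le ?_
    nlinarith
  have h3 : (0 : ℝ) ≤ (n : ℝ) ^ p := by positivity
  nlinarith

theorem wd_mono (p : ℕ) {m n : ℕ} (hm : 1 ≤ m) (h : m ≤ n) : wd p m ≤ wd p n := by
  unfold wd
  have h1 : (1 : ℝ) ≤ m := by exact_mod_cast hm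
  have h2 : (m : ℝ) ≤ n := by exact_mod_cast h
  have hlog : 0 ≤ Real.log m := Real.log_nonneg h1
  refine mul_le_mul (pow_le_pow_left₀ (by linarith) h2 p) (Real.sqrt_le_sqrt ?_)
    (Real.sqrt_nonneg _) (by positivity)
  exact mul_le_mul h2 (Real.log_le_log (by linarith) h2) hlog (by linarith)

theorem succ_pow_sub_le (j : ℕ) {n : ℕ} (hn : 2 ≤ n) :
    ((n : ℝ) + 1) ^ j - (n : ℝ) ^ j ≤ 2 ^ j * j * (2 * wd (j - 1) n) := by
  have h1 : (2 : ℝ) ≤ n := by exact_mod_cast hn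
  have h2 : ((n : ℝ) + 1) ^ j - (n : ℝ) ^ j ≤ j * ((n : ℝ) + 1) ^ (j - 1) := by
    have h3 := Commute.geom_sum₂_mul (Commute.all ((n : ℝ) + 1) (n : ℝ)) j
    rw [← h3]
    have h4 : ((n : ℝ) + 1) - n = 1 := by ring
    rw [h4, mul_one]
    calc ∑ i ∈ Finset.range j, ((n : ℝ) + 1) ^ i * (n : ℝ) ^ (j - 1 - i) ≤
        ∑ i ∈ Finset.range j, ((n : ℝ) + 1) ^ (j - 1) := by
          refine Finset.sum_le_sum fun i hi => ?_
          rw [Finset.mem_range] at hi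
          calc ((n : ℝ) + 1) ^ i * (n : ℝ) ^ (j - 1 - i) ≤
              ((n : ℝ) + 1) ^ i * ((n : ℝ) + 1) ^ (j - 1 - i) := by
                refine mul_le_mul_of_nonneg_left ?_ (by positivity)
                exact pow_le_pow_left₀ (by linarith) (by linarith) _
            _ = ((n : ℝ) + 1) ^ (j - 1) := by
                rw [← pow_add]
                congr 1
                omega
      _ = j * ((n : ℝ) + 1) ^ (j - 1) := by
          rw [Finset.sum_const, Finset.card_range, nsmul_eq_mul]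
  refine h2.trans ?_
  have h5 : ((n : ℝ) + 1) ^ (j - 1) ≤ 2 ^ j * (n : ℝ) ^ (j - 1) := by
    calc ((n : ℝ) + 1) ^ (j - 1) ≤ (2 * (n : ℝ)) ^ (j - 1) :=
          pow_le_pow_left₀ (by linarith) (by linarith) _
      _ = 2 ^ (j - 1) * (n : ℝ) ^ (j - 1) := mul_pow _ _ _
      _ ≤ 2 ^ j * (n : ℝ) ^ (j - 1) := by
          refine mul_le_mul_of_nonneg_right ?_ (by positivity)
          exact pow_le_pow_right₀ (by norm_num) (by omega)
  have h6 := pow_le_wd (j - 1) hn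
  have hj0 : (0 : ℝ) ≤ j := by positivity
  calc (j : ℝ) * ((n : ℝ) + 1) ^ (j - 1) ≤ j * (2 ^ j * (2 * wd (j - 1) n)) := by
        refine mul_le_mul_of_nonneg_left ?_ hj0
        refine h5.trans ?_
        exact mul_le_mul_of_nonneg_left h6 (by positivity)
    _ = 2 ^ j * j * (2 * wd (j - 1) n) := by ring

/-- The final statement in terms of the generic Hilbert function, number of variables `n + 1`. -/
theorem final_H (hB : cBEL) (hA : cABV) (hM : cMID) (hE : cEEB) (j d : ℕ) (cs : ℝ) (hj : 2 ≤ j)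
    (hjd : j ≤ d) (hcs : IsZ j d cs) : ∃ C C' : ℝ, ∃ n0 : ℕ, ∀ n ≥ n0, ∀ r : ℕ,
      ((r : ℝ) ≤ cs * (n : ℝ) ^ j - C * wd (j - 1) n →
        (H ℂ j (n + 1) r d : ℤ) = EE j (n + 1) r d ∧ 0 < EE j (n + 1) r d) ∧
      (cs * (n : ℝ) ^ j + C * wd (j - 1) n ≤ r → H ℂ j (n + 1) r d = 0) ∧
      (cs * (n : ℝ) ^ j - C * wd (j - 1) n ≤ r →
        (H ℂ j (n + 1) r d : ℝ) ≤ C' * wd (d - 1) n) := by
  obtain ⟨C1, M1, h1⟩ := hB ℂ j d hj hjd cs hcs
  obtain ⟨C2, M2, h2⟩ := hA ℂ j d cs hj hjd hcs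
  obtain ⟨η, c4, C4, M4, hη, hc4, hC4, hM4, -, -, hE3, -, -⟩ := hE j d cs hj hcs
  set C5 : ℝ := 2 * C4 / c4 + 1 with hC5
  have hC5pos : 0 < C5 := by positivity
  set D : ℝ := 2 ^ j * max C1 0 + 2 ^ j * max C2 0 + cs * (2 ^ j * j * 2) + 2 ^ j * C5 with hD
  have hD0 : 0 ≤ D := by
    have := hcs.1
    positivity
  obtain ⟨C3, M3, h3⟩ := hM ℂ j d cs (D + cs * (2 ^ j * j * 2)) hj hjd hcs
  have hcs0 := hcs.1
  have hj1 : j - 1 + 1 = j := by omega
  have hd1 : d - 1 + 1 = d := by omega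
  refine ⟨D, 2 ^ d * max C3 0, max (max M1 M2) (max M3 2), fun n hn r => ?_⟩
  have hn2 : 2 ≤ n := le_trans (le_trans (le_max_right M3 2) (le_max_right _ _)) hn
  have hnM1 : M1 ≤ n + 1 :=
    le_trans (le_trans (le_trans (le_max_left _ _) (le_max_left _ _)) hn) (Nat.le_succ n)
  have hnM2 : M2 ≤ n + 1 :=
    le_trans (le_trans (le_trans (le_max_right _ _) (le_max_left _ _)) hn) (Nat.le_succ n)
  have hnM3 : M3 ≤ n + 1 :=
    le_trans (le_trans (le_trans (le_max_left _ _) (le_max_right _ _)) hn) (Nat.le_succ n)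
  have hw0 := wd_nonneg (j - 1) n
  have hw1 := wd_succ_le (j - 1) hn2
  rw [hj1] at hw1
  have hw2 := succ_pow_sub_le j hn2
  have hnn : (n : ℝ) ^ j ≤ ((n : ℝ) + 1) ^ j :=
    pow_le_pow_left₀ (by positivity) (by linarith) j
  have hcast : ((n + 1 : ℕ) : ℝ) = (n : ℝ) + 1 := by push_cast; ring
  have hcw : cs * (((n : ℝ) + 1) ^ j - (n : ℝ) ^ j) ≤ cs * (2 ^ j * j * 2) * wd (j - 1) n := by
    calc cs * (((n : ℝ) + 1) ^ j - (n : ℝ) ^ j) ≤ cs * (2 ^ j * j * (2 * wd (j - 1) n)) :=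
          mul_le_mul_of_nonneg_left hw2 hcs0.le
      _ = _ := by ring
  have hpos0 : 0 ≤ cs * (2 ^ j * j * 2) * wd (j - 1) n := by positivity
  have e1 : max C1 0 * wd (j - 1) (n + 1) ≤ 2 ^ j * max C1 0 * wd (j - 1) n := by
    calc max C1 0 * wd (j - 1) (n + 1) ≤ max C1 0 * (2 ^ j * wd (j - 1) n) :=
          mul_le_mul_of_nonneg_left hw1 (le_max_right _ _)
      _ = _ := by ring
  have e2 : max C2 0 * wd (j - 1) (n + 1) ≤ 2 ^ j * max C2 0 * wd (j - 1) n := by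
    calc max C2 0 * wd (j - 1) (n + 1) ≤ max C2 0 * (2 ^ j * wd (j - 1) n) :=
          mul_le_mul_of_nonneg_left hw1 (le_max_right _ _)
      _ = _ := by ring
  have p1 : 0 ≤ 2 ^ j * max C1 0 * wd (j - 1) n := by positivity
  have p2 : 0 ≤ 2 ^ j * max C2 0 * wd (j - 1) n := by positivity
  have p3 : 0 ≤ 2 ^ j * C5 * wd (j - 1) n := by positivity
  have e5 : C5 * wd (j - 1) (n + 1) ≤ 2 ^ j * C5 * wd (j - 1) n := by
    calc C5 * wd (j - 1) (n + 1) ≤ C5 * (2 ^ j * wd (j - 1) n) :=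
          mul_le_mul_of_nonneg_left hw1 hC5pos.le
      _ = _ := by ring
  have eD : D * wd (j - 1) n = 2 ^ j * max C1 0 * wd (j - 1) n +
      2 ^ j * max C2 0 * wd (j - 1) n + cs * (2 ^ j * j * 2) * wd (j - 1) n +
      2 ^ j * C5 * wd (j - 1) n := by
    rw [hD]; ring
  refine ⟨fun hr => ⟨?_, ?_⟩, fun hr => ?_, fun hr => ?_⟩
  · refine h1 (n + 1) hnM1 r ?_
    have e3 : C1 * wd (j - 1) (n + 1) ≤ max C1 0 * wd (j - 1) (n + 1) :=
      mul_le_mul_of_nonneg_right (le_max_left _ _) (wd_nonneg _ _)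
    have e4 : cs * (n : ℝ) ^ j ≤ cs * ((n : ℝ) + 1) ^ j := mul_le_mul_of_nonneg_left hnn hcs0.le
    rw [hcast]
    linarith
  · -- positivity of the expected value
    have e4 : cs * (n : ℝ) ^ j ≤ cs * ((n : ℝ) + 1) ^ j := mul_le_mul_of_nonneg_left hnn hcs0.le
    have hr1 : (r : ℝ) + C5 * wd (j - 1) (n + 1) ≤ cs * ((n + 1 : ℕ) : ℝ) ^ j := by
      rw [hcast]
      linarith
    have hw5 := wd_nonneg (j - 1) (n + 1)
    have hr2 : (r : ℝ) ≤ cs * ((n + 1 : ℕ) : ℝ) ^ j := by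
      have : 0 ≤ C5 * wd (j - 1) (n + 1) := by positivity
      linarith
    have h5 := (hE3 (n + 1) r (by omega) hr2).1
    have hNj : (0 : ℝ) < ((n + 1 : ℕ) : ℝ) ^ j := by positivity
    have hdj : ((n + 1 : ℕ) : ℝ) ^ d = ((n + 1 : ℕ) : ℝ) ^ j * ((n + 1 : ℕ) : ℝ) ^ (d - j) := by
      rw [← pow_add]; congr 1; omega
    have hwdd : wd (j - 1) (n + 1) * ((n + 1 : ℕ) : ℝ) ^ (d - j) = wd (d - 1) (n + 1) := by
      unfold wd
      have : ((n + 1 : ℕ) : ℝ) ^ (d - 1) =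
          ((n + 1 : ℕ) : ℝ) ^ (j - 1) * ((n + 1 : ℕ) : ℝ) ^ (d - j) := by
        rw [← pow_add]; congr 1; omega
      rw [this]
      ring
    have h6 : c4 * (cs - (r : ℝ) / ((n + 1 : ℕ) : ℝ) ^ j) * ((n + 1 : ℕ) : ℝ) ^ d =
        c4 * ((cs * ((n + 1 : ℕ) : ℝ) ^ j - r) * ((n + 1 : ℕ) : ℝ) ^ (d - j)) := by
      rw [hdj]
      field_simp
    have h7 : C5 * wd (d - 1) (n + 1) ≤
        (cs * ((n + 1 : ℕ) : ℝ) ^ j - r) * ((n + 1 : ℕ) : ℝ) ^ (d - j) := by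
      rw [← hwdd, ← mul_assoc]
      refine mul_le_mul_of_nonneg_right ?_ (by positivity)
      linarith
    have h8 := pow_le_wd (d - 1) (n := n + 1) (by omega)
    have h9 : (0 : ℝ) < ((n + 1 : ℕ) : ℝ) ^ (d - 1) := by positivity
    have h10 : c4 * (C5 * wd (d - 1) (n + 1)) ≤
        c4 * ((cs * ((n + 1 : ℕ) : ℝ) ^ j - r) * ((n + 1 : ℕ) : ℝ) ^ (d - j)) :=
      mul_le_mul_of_nonneg_left h7 hc4.le
    have h11 : c4 * C5 = 2 * C4 + c4 := by
      rw [hC5]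
      field_simp
    have h12 : C4 * ((n + 1 : ℕ) : ℝ) ^ (d - 1) < c4 * (C5 * wd (d - 1) (n + 1)) := by
      rw [← mul_assoc, h11]
      nlinarith
    have h13 : (0 : ℝ) < (EE j (n + 1) r d : ℝ) := by
      rw [h6] at h5
      linarith
    exact_mod_cast h13
  · refine h2 (n + 1) hnM2 r ?_
    have e3 : C2 * wd (j - 1) (n + 1) ≤ max C2 0 * wd (j - 1) (n + 1) :=
      mul_le_mul_of_nonneg_right (le_max_left _ _) (wd_nonneg _ _)
    have e4 : cs * (((n : ℝ) + 1) ^ j - (n : ℝ) ^ j) =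
        cs * ((n : ℝ) + 1) ^ j - cs * (n : ℝ) ^ j := by ring
    rw [hcast]
    linarith
  · have h4 := h3 (n + 1) hnM3 r (by
      have e4 : cs * (((n : ℝ) + 1) ^ j - (n : ℝ) ^ j) =
        cs * ((n : ℝ) + 1) ^ j - cs * (n : ℝ) ^ j := by ring
      have e5 : (D + cs * (2 ^ j * j * 2)) * wd (j - 1) n ≤
          (D + cs * (2 ^ j * j * 2)) * wd (j - 1) (n + 1) := by
        refine mul_le_mul_of_nonneg_left (wd_mono _ (by omega) (Nat.le_succ n)) ?_
        positivity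
      rw [hcast]
      have e6 : (D + cs * (2 ^ j * j * 2)) * wd (j - 1) n =
        D * wd (j - 1) n + cs * (2 ^ j * j * 2) * wd (j - 1) n := by ring
      linarith)
    refine h4.trans ?_
    have hw3 := wd_succ_le (d - 1) hn2
    rw [hd1] at hw3
    calc C3 * wd (d - 1) (n + 1) ≤ max C3 0 * wd (d - 1) (n + 1) :=
          mul_le_mul_of_nonneg_right (le_max_left _ _) (wd_nonneg _ _)
      _ ≤ max C3 0 * (2 ^ d * wd (d - 1) n) :=
          mul_le_mul_of_nonneg_left hw3 (le_max_right _ _)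
      _ = 2 ^ d * max C3 0 * wd (d - 1) n := by ring

end Pool.Agent.Helper65.HF
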