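import Mathlib
import Pool.Agent.Helper65.HF.Fin

/-!
Project HF: the statement about fat points.
-/

namespace Pool.Agent.Helper65.HF

open MvPolynomial Pool.Agent.Helper45

/-- The ideal of forms vanishing at `p`. -/
noncomputable def pointIdeal {n : ℕ} (p : Fin (n + 1) → ℂ) :
    Ideal (MvPolynomial (Fin (n + 1)) ℂ) :=
  Ideal.span {f | (∃ d, f.IsHomogeneous d) ∧ eval p f = 0}

/-- The intersection of the powers. -/
noncomputable def fatIdeal {n r : ℕ} (P : Fin r → Fin (n + 1) → ℂ) (m : ℕ) :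
    Ideal (MvPolynomial (Fin (n + 1)) ℂ) :=
  ⨅ i, pointIdeal (P i) ^ m

/-- The Hilbert function of the quotient. -/
noncomputable def hilb {n : ℕ} (J : Ideal (MvPolynomial (Fin (n + 1)) ℂ)) (d : ℕ) : ℝ :=
  (Module.finrank ℂ (homogeneousSubmodule (Fin (n + 1)) ℂ d) : ℝ) -
    (Module.finrank ℂ (homogeneousSubmodule (Fin (n + 1)) ℂ d ⊓ J.restrictScalars ℂ :
      Submodule ℂ (MvPolynomial (Fin (n + 1)) ℂ)) : ℝ)

theorem dim_fin (n d : ℕ) : Module.finrank ℂ (homogeneousSubmodule (Fin (n + 1)) ℂ d) =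
    (n + d).choose n := by
  have h : n + 1 + d - 1 = n + d := by omega
  rw [finrank_homog, Fintype.card_fin, h,
    ← Nat.choose_symm_of_eq_add (n := n + d) (a := n) (b := d) rfl]

theorem EE_eq (j n r d : ℕ) : EE j (n + 1) r d = ((n + d).choose n : ℤ) -
    ∑ i ∈ Finset.range (d / j), (-1) ^ i * (r.choose (i + 1) : ℤ) *
      ((n + d - (i + 1) * j).choose n : ℤ) := by
  unfold EE
  rw [Finset.sum_range_succ', ← sub_eq_zero]
  have h0 : (-1 : ℤ) ^ 0 * (r.choose 0 : ℤ) *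
      ((n + 1 + (d - 0 * j) - 1).choose (d - 0 * j) : ℤ) = ((n + d).choose n : ℤ) := by
    have h : n + 1 + d - 1 = n + d := by omega
    rw [pow_zero, Nat.choose_zero_right, Nat.cast_one, one_mul, one_mul, zero_mul, Nat.sub_zero, h,
      ← Nat.choose_symm_of_eq_add (n := n + d) (a := n) (b := d) rfl]
  rw [h0]
  have h1 : ∑ i ∈ Finset.range (d / j), (-1 : ℤ) ^ (i + 1) * (r.choose (i + 1) : ℤ) *
      ((n + 1 + (d - (i + 1) * j) - 1).choose (d - (i + 1) * j) : ℤ) =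
      - ∑ i ∈ Finset.range (d / j), (-1) ^ i * (r.choose (i + 1) : ℤ) *
      ((n + d - (i + 1) * j).choose n : ℤ) := by
    rw [← Finset.sum_neg_distrib]
    refine Finset.sum_congr rfl fun i hi => ?_
    rw [Finset.mem_range] at hi
    have h2 : (i + 1) * j ≤ d := by
      calc (i + 1) * j ≤ (d / j) * j := Nat.mul_le_mul_right j hi
        _ ≤ d := Nat.div_mul_le_self d j
    have h3 : n + 1 + (d - (i + 1) * j) - 1 = n + (d - (i + 1) * j) := by omega
    have h4 : n + d - (i + 1) * j = n + (d - (i + 1) * j) := by omega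
    rw [h3, h4, ← Nat.choose_symm_of_eq_add (n := n + (d - (i + 1) * j)) (a := n)
      (b := d - (i + 1) * j) rfl, pow_succ]
    ring
  rw [h1]
  ring

/-- The final statement. -/
theorem main (hB : cBEL) (hA : cABV) (hM : cMID) (hE : cEEB) (hH : cHIL) (m d : ℕ) (hm : 1 ≤ m)
    (hd : m + 1 ≤ d) : ∃ cs : ℝ, 0 < cs ∧ thr (d + 1 - m) d cs = 0 ∧
      (∀ c, 0 ≤ c → c < cs → 0 < thr (d + 1 - m) d c) ∧
      ∃ C C' : ℝ, ∃ n0 : ℕ, ∀ n ≥ n0, ∀ r : ℕ,
        ((r : ℝ) ≤ cs * (n : ℝ) ^ (d + 1 - m) -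
            C * ((n : ℝ) ^ (d - m) * Real.sqrt (n * Real.log n)) →
          (∀ P : Fin r → Fin (n + 1) → ℂ, (∀ i, P i ≠ 0) →
            hilb (fatIdeal P m) d ≤ ∑ i ∈ Finset.range (d / (d + 1 - m)), (-1 : ℝ) ^ i *
              (r.choose (i + 1) : ℝ) * ((n + d - (i + 1) * (d + 1 - m)).choose n : ℝ) ∧
            ∃ f ∈ fatIdeal P m, f.IsHomogeneous d ∧ f ≠ 0) ∧
          ∃ G : MvPolynomial (Fin r × Fin (n + 1)) ℂ, G ≠ 0 ∧
            ∀ P : Fin r → Fin (n + 1) → ℂ, eval (fun x => P x.1 x.2) G ≠ 0 →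
              (∀ i, P i ≠ 0) ∧ hilb (fatIdeal P m) d =
                ∑ i ∈ Finset.range (d / (d + 1 - m)), (-1 : ℝ) ^ i *
                  (r.choose (i + 1) : ℝ) * ((n + d - (i + 1) * (d + 1 - m)).choose n : ℝ)) ∧
        (cs * (n : ℝ) ^ (d + 1 - m) +
            C * ((n : ℝ) ^ (d - m) * Real.sqrt (n * Real.log n)) ≤ r →
          ∃ G : MvPolynomial (Fin r × Fin (n + 1)) ℂ, G ≠ 0 ∧
            ∀ P : Fin r → Fin (n + 1) → ℂ, eval (fun x => P x.1 x.2) G ≠ 0 →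
              (∀ i, P i ≠ 0) ∧ ∀ e ≤ d, hilb (fatIdeal P m) e = ((n + e).choose n : ℝ)) ∧
        (cs * (n : ℝ) ^ (d + 1 - m) -
            C * ((n : ℝ) ^ (d - m) * Real.sqrt (n * Real.log n)) ≤ r →
          ∃ G : MvPolynomial (Fin r × Fin (n + 1)) ℂ, G ≠ 0 ∧
            ∀ P : Fin r → Fin (n + 1) → ℂ, eval (fun x => P x.1 x.2) G ≠ 0 →
              (∀ i, P i ≠ 0) ∧ ((n + d).choose n : ℝ) -
                C' * ((n : ℝ) ^ (d - 1) * Real.sqrt (n * Real.log n)) ≤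
                  hilb (fatIdeal P m) d) := by
  obtain ⟨cs, hcs⟩ := exists_isZ (j := d + 1 - m) (b := d) (by omega) (by omega)
  refine ⟨cs, hcs.1, hcs.2.1, hcs.2.2, ?_⟩
  obtain ⟨C, C', n0, h0⟩ := final_H hB hA hM hE (d + 1 - m) d cs (by omega) (by omega) hcs
  refine ⟨C, C', n0, fun n hn r => ?_⟩
  obtain ⟨h1, h2, h3⟩ := h0 n hn r
  obtain ⟨h4, G, hG1, hG2⟩ := hH n m (d + 1 - m) r hm (by omega)
  have hd' : m - 1 + (d + 1 - m) = d := by omega
  have hwj : wd (d + 1 - m - 1) n = (n : ℝ) ^ (d - m) * Real.sqrt (n * Real.log n) := by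
    unfold wd
    congr 2
    omega
  rw [hd'] at h4 hG2
  rw [hwj] at h1 h2 h3
  have hEE := EE_eq (d + 1 - m) n r d
  have hEER : (EE (d + 1 - m) (n + 1) r d : ℝ) = ((n + d).choose n : ℝ) -
      ∑ i ∈ Finset.range (d / (d + 1 - m)), (-1 : ℝ) ^ i * (r.choose (i + 1) : ℝ) *
      ((n + d - (i + 1) * (d + 1 - m)).choose n : ℝ) := by
    rw [hEE]
    push_cast
    ring
  refine ⟨fun hr => ⟨fun P hP => ⟨?_, ?_⟩, G, hG1, fun P hP => ⟨(hG2 P hP).1, ?_⟩⟩,
    fun hr => ⟨G, hG1, fun P hP => ⟨(hG2 P hP).1, ?_⟩⟩,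
    fun hr => ⟨G, hG1, fun P hP => ⟨(hG2 P hP).1, ?_⟩⟩⟩
  · have h5 := h4 P hP
    rw [(h1 hr).1] at h5
    have h6 : (EE (d + 1 - m) (n + 1) r d : ℝ) ≤
      (Module.finrank ℂ (homogeneousSubmodule (Fin (n + 1)) ℂ d ⊓
        (fatIdeal P m).restrictScalars ℂ : Submodule ℂ (MvPolynomial (Fin (n + 1)) ℂ)) : ℝ) := by
      exact_mod_cast h5
    unfold hilb
    rw [dim_fin]
    rw [hEER] at h6
    linarith
  · have h5 := h4 P hP
    rw [(h1 hr).1] at h5
    have h6 := lt_of_lt_of_le (h1 hr).2 h5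
    have h7 : (homogeneousSubmodule (Fin (n + 1)) ℂ d ⊓
        (fatIdeal P m).restrictScalars ℂ : Submodule ℂ (MvPolynomial (Fin (n + 1)) ℂ)) ≠ ⊥ := by
      intro h8
      have h9 : Module.finrank ℂ (homogeneousSubmodule (Fin (n + 1)) ℂ d ⊓
        (fatId P m).restrictScalars ℂ : Submodule ℂ (MvPolynomial (Fin (n + 1)) ℂ)) = 0 := by
        have h10 : (homogeneousSubmodule (Fin (n + 1)) ℂ d ⊓
          (fatId P m).restrictScalars ℂ : Submodule ℂ (MvPolynomial (Fin (n + 1)) ℂ)) = ⊥ := h8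
        rw [h10, finrank_bot]
      rw [h9] at h6
      exact lt_irrefl _ h6
    obtain ⟨f, hf, hf0⟩ := Submodule.exists_mem_ne_zero_of_ne_bot h7
    exact ⟨f, hf.2, (mem_homogeneousSubmodule _ _).1 hf.1, hf0⟩
  · have h5 := (hG2 P hP).2
    rw [(h1 hr).1] at h5
    have h6 : (Module.finrank ℂ (homogeneousSubmodule (Fin (n + 1)) ℂ d ⊓
        (fatIdeal P m).restrictScalars ℂ : Submodule ℂ (MvPolynomial (Fin (n + 1)) ℂ)) : ℝ) =
        (EE (d + 1 - m) (n + 1) r d : ℝ) := by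
      exact_mod_cast h5
    unfold hilb
    rw [dim_fin, h6, hEER]
    ring
  · have h5 := (hG2 P hP).2
    rw [h2 hr] at h5
    have h6 : Module.finrank ℂ (homogeneousSubmodule (Fin (n + 1)) ℂ d ⊓
        (fatIdeal P m).restrictScalars ℂ : Submodule ℂ (MvPolynomial (Fin (n + 1)) ℂ)) = 0 := by
      exact_mod_cast h5
    have hfin : Module.Finite ℂ (homogeneousSubmodule (Fin (n + 1)) ℂ d ⊓
        (fatIdeal P m).restrictScalars ℂ : Submodule ℂ (MvPolynomial (Fin (n + 1)) ℂ)) :=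
      Submodule.finiteDimensional_of_le inf_le_left
    rw [Submodule.finrank_eq_zero] at h6
    intro e he
    have h7 : (homogeneousSubmodule (Fin (n + 1)) ℂ e ⊓ (fatIdeal P m).restrictScalars ℂ :
        Submodule ℂ (MvPolynomial (Fin (n + 1)) ℂ)) = ⊥ := by
      rw [Submodule.eq_bot_iff]
      rintro f ⟨hf1, hf2⟩
      have h8 : (X 0 : MvPolynomial (Fin (n + 1)) ℂ) ^ (d - e) * f ∈
          (homogeneousSubmodule (Fin (n + 1)) ℂ d ⊓ (fatIdeal P m).restrictScalars ℂ :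
            Submodule ℂ (MvPolynomial (Fin (n + 1)) ℂ)) := by
        refine ⟨?_, ?_⟩
        · rw [SetLike.mem_coe, mem_homogeneousSubmodule]
          have h9 := ((isHomogeneous_X ℂ (0 : Fin (n + 1))).pow (d - e)).mul
            ((mem_homogeneousSubmodule _ _).1 hf1)
          rw [one_mul, Nat.sub_add_cancel he] at h9
          exact h9
        · exact Ideal.mul_mem_left _ _ hf2
      rw [h6, Submodule.mem_bot, mul_eq_zero] at h8
      rcases h8 with h8 | h8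
      · exact absurd h8 (pow_ne_zero _ (X_ne_zero _))
      · exact h8
    unfold hilb
    rw [h7, finrank_bot, Nat.cast_zero, sub_zero, dim_fin]
  · have h5 := (hG2 P hP).2
    have h6 : (Module.finrank ℂ (homogeneousSubmodule (Fin (n + 1)) ℂ d ⊓
        (fatIdeal P m).restrictScalars ℂ : Submodule ℂ (MvPolynomial (Fin (n + 1)) ℂ)) : ℝ) =
        (H ℂ (d + 1 - m) (n + 1) r d : ℝ) := by
      exact_mod_cast h5
    have h7 := h3 hr
    unfold wd at h7
    unfold hilb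
    rw [dim_fin, h6]
    linarith

end Pool.Agent.Helper65.HF
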