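import Pool.Agent.Helper38.HF.M_FKG
import Pool.Agent.Helper63.HF.M_SPL
import Pool.Agent.Helper49.HF.M_ALP
import Pool.Agent.Helper29.HF.M_ALU
import Pool.Agent.Helper40.HF.M_BET
import Pool.Agent.Helper66.HF.M_GAM
import Pool.Agent.Helper63.HF.M_DEC
import Pool.Agent.Helper60.HF.M_EXT
import Pool.Agent.Helper63.HF.M_MNB
import Pool.Agent.Helper80.HF.M_CNT
import Pool.Agent.Helper49.HF.M_OML
import Pool.Agent.Helper30.HF.M_LST
import Pool.Agent.Helper79.HF.M_REG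
import Pool.Agent.Helper81.HF.M_TRB
import Pool.Agent.Helper45.HF.M_UPB
import Pool.Agent.Helper38.HF.M_TRA
import Pool.Agent.Helper37.HF.M_RLO
import Pool.Agent.Helper41.HF.M_ECH
import Pool.Agent.Helper5.HF.M_CNV
import Pool.Agent.Helper34.HF.M_DRV
import Pool.Agent.Helper74.HF.M_CLR
import Pool.Agent.Helper3.HF.M_SPC
import Pool.Agent.Helper32.HF.M_PRT
import Pool.Agent.Helper44.HF.M_GNR
import Pool.Agent.Helper42.HF.M_SEM
import Pool.Agent.Helper21.HF.M_CPT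
import Pool.Agent.Helper49.HF.M_LSM
import Pool.Agent.Helper6.HF.M_MUX
import Pool.Agent.Helper52.HF.M_UPP
import Pool.Agent.Helper94.HF.M_ALG
import Pool.Agent.Helper95.HF.M_REC
import Pool.Agent.Helper62.HF.M_HUP
import Pool.Agent.Helper63.HF.M_BAS
import Pool.Agent.Helper92.HF.M_TRH
import Pool.Agent.Helper54.HF.M_ASY
import Pool.Agent.Helper53.HF.M_GAP
import Pool.Agent.Helper38.HF.M_EEB
import Pool.Agent.Helper63.HF.M_EXA
import Pool.Agent.Helper54.HF.M_NUS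
import Pool.Agent.Helper8.HF.M_TTB
import Pool.Agent.Helper58.HF.M_TTA
import Pool.Agent.Helper58.HF.M_SB1
import Pool.Agent.Helper7.HF.M_SUB
import Pool.Agent.Helper58.HF.M_SA1
import Pool.Agent.Helper83.HF.M_SUA
import Pool.Agent.Helper53.HF.M_STP
import Pool.Agent.Helper95.HF.M_BEL
import Pool.Agent.Helper83.HF.M_ABV
import Pool.Agent.Helper52.HF.M_MID
import Pool.Agent.Helper22.HF.M_HIL
import Pool.Agent.Helper65.HF.Res

/-!
Project HF: assembly.
-/

namespace Pool.Agent.Helper65.HF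

theorem rRLO : cRLO := Pool.Agent.Helper37.HF.hRLO

theorem rECH : sECH := Pool.Agent.Helper41.HF.hECH

theorem rCNV : cCNV := Pool.Agent.Helper5.HF.hCNV rECH rRLO

theorem rDRV : cDRV := Pool.Agent.Helper34.HF.hDRV rRLO

theorem rCLR : cCLR := Pool.Agent.Helper74.HF.hCLR

theorem rSPC : sSPC := Pool.Agent.Helper3.HF.hSPC

theorem rPRT : cPRT := Pool.Agent.Helper32.HF.hPRT

theorem rGNR : cGNR := Pool.Agent.Helper44.HF.hGNR rSPC

theorem rSEM : cSEM := Pool.Agent.Helper42.HF.hSEM rSPC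

theorem rCPT : cCPT := Pool.Agent.Helper21.HF.hCPT rPRT

theorem rLSM : cLSM := Pool.Agent.Helper49.HF.hLSM

theorem rMUX : cMUX := Pool.Agent.Helper6.HF.hMUX rRLO

theorem rUPP : cUPP := Pool.Agent.Helper52.HF.hUPP rRLO rDRV rCLR rCPT rLSM rMUX

theorem rALG : cALG := Pool.Agent.Helper94.HF.hALG rRLO rCNV rCLR rPRT rGNR rSEM rLSM rUPP

theorem rFKG : sFKG := Pool.Agent.Helper38.HF.hFKG

theorem rSPL : sSPL := Pool.Agent.Helper63.HF.hSPL

theorem rALP : cALP := Pool.Agent.Helper49.HF.hALP rFKG rSPL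

theorem rALU : cALU := Pool.Agent.Helper29.HF.hALU rALP

theorem rBET : cBET := Pool.Agent.Helper40.HF.hBET rALU

theorem rGAM : cGAM := Pool.Agent.Helper66.HF.hGAM rBET rSPL

theorem rDEC : sDEC := Pool.Agent.Helper63.HF.hDEC

theorem rEXT : sEXT := Pool.Agent.Helper60.HF.hEXT

theorem rMNB : cMNB := Pool.Agent.Helper63.HF.hMNB rALP rGAM rDEC rEXT

theorem rCNT : sCNT := Pool.Agent.Helper80.HF.hCNT

theorem rOML : sOML := Pool.Agent.Helper49.HF.hOML

theorem rLST : sLST := Pool.Agent.Helper30.HF.hLST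

theorem rREG : sREG := Pool.Agent.Helper79.HF.hREG

theorem rTRB : cTRB := Pool.Agent.Helper81.HF.hTRB rMNB rCNT rDEC rOML rEXT rLST rREG

theorem rUPB : sUPB := Pool.Agent.Helper45.HF.hUPB

theorem rTRA : cTRA := Pool.Agent.Helper38.HF.hTRA rALU rUPB rFKG rSPL rDEC rCNT rOML rEXT rLST rREG

theorem rREC : cREC := Pool.Agent.Helper95.HF.hREC

theorem rHUP : cHUP := Pool.Agent.Helper62.HF.hHUP

theorem rBAS : cBAS := Pool.Agent.Helper63.HF.hBAS

theorem rTRH : cMOV ∧ cTBH ∧ cTAH := Pool.Agent.Helper92.HF.hTRH rALG rTRB rTRA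

theorem rASY : cASY := Pool.Agent.Helper54.HF.hASY

theorem rGAP : cGAP := Pool.Agent.Helper53.HF.hGAP

theorem rEEB : cEEB := Pool.Agent.Helper38.HF.hEEB rASY rGAP

theorem rEXA : cEXA := Pool.Agent.Helper63.HF.hEXA rHUP rREC

theorem rNUS : cNUS := Pool.Agent.Helper54.HF.hNUS rHUP rREC rEEB

theorem rTTB : cTTB := Pool.Agent.Helper8.HF.hTTB rHUP rREC rEEB rEXA rNUS rTRH.2.1

theorem rTTA : cTTA := Pool.Agent.Helper58.HF.pTTA rHUP rREC rEXA rNUS rTRH.1 rTRH.2.2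

theorem rSB1 : cSB1 := Pool.Agent.Helper58.HF.pSB1

theorem rSUB : cSUB := Pool.Agent.Helper7.HF.hSUB rSB1

theorem rSA1 : cSA1 := Pool.Agent.Helper58.HF.pSA1

theorem rSUA : cSUA := Pool.Agent.Helper83.HF.hSUA rSA1

theorem rSTP : cSTP := Pool.Agent.Helper53.HF.hSTP rHUP rREC rEEB rTTB rSUB

theorem rBEL : cBEL := Pool.Agent.Helper95.HF.hBEL rSTP rBAS rREC

theorem rABV : cABV := Pool.Agent.Helper83.HF.hABV rHUP rREC rASY rEEB rBAS rBEL rTTA rSUA

theorem rMID : cMID := Pool.Agent.Helper52.HF.hMID rHUP rEEB rBEL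

theorem rHIL : cHIL := Pool.Agent.Helper22.HF.hHIL

end Pool.Agent.Helper65.HF
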